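import Pool.Agent.L7h39.TV.Stm

set_option autoImplicit false

/-!
# Graphs with gains: further statements
-/

namespace Pool.Agent.L7h39.TV

open Matrix Pool.Agent.Y648.CS.V

/-- The nonnegative vectors `x` in the left kernel of a matrix with two entries per row, with
`x e = 1`: the minimum of their costs, up to a factor, as a minimum of few maxima (`S_CORE` in terms
of matrices). -/
def S_LCP : Prop := ∃ Q : Polynomial ℕ, ∀ (K n : ℕ) (A : Matrix (Fin K) (Fin n) ℝ)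
  (α β : Fin K → ℝ) (e : Fin K), Two A → (∀ i, 0 ≤ α i) → (∀ i, 0 ≤ β i) →
  ∃ D : Finset (ℝ × ℝ), D.card ≤ Q.eval K ∧ (∀ p ∈ D, 0 ≤ p.1 ∧ 0 ≤ p.2) ∧
    (∀ θ : ℝ, 0 < θ → ∀ x ∈ lker A, (∀ i, 0 ≤ x i) → x e = 1 →
      ∃ p ∈ D, max p.1 (θ * p.2) ≤ 2 ^ Q.eval K * ∑ i, (α i + θ * β i) * x i) ∧
    ∀ p ∈ D, ∃ x ∈ lker A, (∀ i, 0 ≤ x i) ∧ x e = 1 ∧
      ∑ i, α i * x i ≤ 2 ^ Q.eval K * p.1 ∧ ∑ i, β i * x i ≤ 2 ^ Q.eval K * p.2

/-- The vectors orthogonal to the left kernel of a matrix with at most two nonzero entries in every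
row: on an interval on which the capacities are linear, the maximum of a coordinate is always near
one of few lines. -/
def S_BRD : Prop := ∃ Q : Polynomial ℕ, ∀ (K n : ℕ) (A : Matrix (Fin K) (Fin n) ℝ)
  (s : Fin K → ℝ) (e : Fin K) (a b : ℝ), Two A → (∀ i, 0 ≤ s i) → a ≤ b → Lin s a b →
  0 < mx (ann (lker A)) s (Pi.single e 1) (2 ^ a) →
  ∃ (r : ℕ) (c : Fin r → ℝ) (σ : Fin r → Bool), r ≤ Q.eval K ∧
    ∀ y : ℝ, a ≤ y → y ≤ b →
      ∃ i, |lmx (ann (lker A)) s (Pi.single e 1) y - (c i + if σ i then y else 0)| ≤ Q.eval K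

/-- Removing coordinates from the left kernel of a matrix with two entries per row (elimination of
the rows not in the image of `ψ`). -/
def S_CON : Prop := ∀ (K m n : ℕ) (ψ : Fin K → Fin m) (A : Matrix (Fin m) (Fin n) ℝ),
  Function.Injective ψ → Two A →
  ∃ (n' : ℕ) (B : Matrix (Fin K) (Fin n') ℝ), Two B ∧
    ∀ x : Fin K → ℝ, x ∈ lker B ↔ ∃ u ∈ lker A, ∀ i, x i = u (ψ i)

end Pool.Agent.L7h39.TV
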