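import Pool.Agent.L7h39.TV.Defs
import Pool.Agent.Y648.CX.StmB

set_option autoImplicit false

/-!
# Graphs with gains: the statements
-/

namespace Pool.Agent.L7h39.TV

open Matrix Pool.Agent.Y648.CS.V

/-- Coarse gains (simultaneous approximation of the logarithms). -/
def S_GAP : Prop := ∀ (E : Type) [Fintype E] (M : ℕ) (g : E → ℝ), (∀ f, 0 < g f) →
  ∃ (k : E → ℝ) (lam : ℝ), Crs g k lam M ∧ 1 ≤ lam * (8 * M + 8) ^ Fintype.card E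

/-- A flow with nonnegative net outflow everywhere and net outflow at least `Q` at `v` costs at
least `Q` times as much as some simple way to dispose of a unit at `v`. -/
def S_P1 : Prop := ∀ (E N : Type) [Fintype E] [DecidableEq E] [DecidableEq N]
  (tl hd : E → Option N) (g c y : E → ℝ) (v : N) (Q : ℝ),
  (∀ f, 0 < g f) → (∀ f, 0 ≤ c f) → (∀ f, 0 ≤ y f) → (∀ u, 0 ≤ dd tl hd g y u) →
  0 < Q → Q ≤ dd tl hd g y v →
  (∃ (P : List E) (w : N) (s : E), Wk tl hd v P w ∧ P.length ≤ Fintype.card E ∧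
    tl s = some w ∧ hd s = none ∧
    Q * (sml g c P + wt g P * c s) ≤ ∑ f, c f * y f) ∨
  (∃ (P : List E) (w : N) (z : List E), Wk tl hd v P w ∧ P.length ≤ Fintype.card E ∧
    Wk tl hd w z w ∧ z.length ≤ Fintype.card E ∧ wt g z < 1 ∧
    Q * (sml g c P + wt g P * ((1 - wt g z)⁻¹ * sml g c z)) ≤ ∑ f, c f * y f)

/-- The circulations through the arc `e`. -/
def S_MIX : Prop := ∀ (E N : Type) [Fintype E] [DecidableEq E] [DecidableEq N]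
  (tl hd : E → Option N) (g c y : E → ℝ) (e : E) (p q : N) (Tp Tq Sp : ℝ),
  (∀ f, 0 < g f) → (∀ f, 0 ≤ c f) → (∀ f, 0 ≤ y f) → (∀ u, dd tl hd g y u = 0) →
  tl e = some p → hd e = some q → y e = 1 → 0 ≤ Tp → 0 ≤ Tq → 0 ≤ Sp →
  LB tl hd g c p Tp → LB tl hd g c q Tq → LBS tl hd g c p Sp →
  (Fe tl hd g q ∧ Fes tl hd g p ∧ g e * Tq ≤ 200 * ∑ f, c f * y f ∧
    Sp ≤ 200 * ∑ f, c f * y f) ∨
  ∃ P : List E, Wk tl hd q P p ∧ P.length ≤ Fintype.card E ∧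
    1 / 2 ≤ wt g (e :: P) ∧ wt g (e :: P) ≤ 2 ∧ sml g c (e :: P) ≤ 200 * ∑ f, c f * y f ∧
    (1 < wt g (e :: P) → Fe tl hd g p ∧
      (wt g (e :: P) - 1) * Tp ≤ 200 * ∑ f, c f * y f) ∧
    (wt g (e :: P) < 1 → Fes tl hd g p ∧
      (1 - wt g (e :: P)) * Sp ≤ 200 * ∑ f, c f * y f)

/-- Reduction to short walks. -/
def S_RED : Prop := ∀ (E N : Type) [Fintype E] [DecidableEq E] [DecidableEq N]
  (tl hd : E → Option N) (g k a b : E → ℝ) (L M0 : ℕ) (v : N) (p : ℝ × ℝ),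
  (∀ f, 0 < k f) → (∀ f, 0 ≤ a f) → (∀ f, 0 ≤ b f) → Fb tl hd g k L M0 a b v p →
  ∃ p', Fb tl hd g k (Fintype.card E) M0 a b v p' ∧ p'.1 ≤ p.1 ∧ p'.2 ≤ p.2

/-- Few pairs of costs dominate all pairs (given `S_RED`, an exchange argument). -/
def S_TRO : Prop := ∀ (E N : Type) [Fintype E] [DecidableEq E] [DecidableEq N]
  (tl hd : E → Option N) (g k a b : E → ℝ) (M0 : ℕ) (v : N),
  (∀ f, 0 < g f) → (∀ f, 0 < k f) → (∀ f, 0 ≤ a f) → (∀ f, 0 ≤ b f) →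
  ∃ D : Finset (ℝ × ℝ), D.card ≤ 2 * Fintype.card E ^ 2 + 2 * Fintype.card E + 2 ∧
    (∀ p ∈ D, Fb tl hd g k (Fintype.card E) M0 a b v p) ∧
    ∀ L p, Fb tl hd g k L M0 a b v p → ∃ p' ∈ D, p'.1 ≤ p.1 ∧ p'.2 ≤ p.2

/-- The same for the closed walks through the arc `e`, up to pairs of ways to dispose of the flow
of `e` at its head and to produce it at its tail. -/
def S_BET : Prop := ∀ (E N : Type) [Fintype E] [DecidableEq E] [DecidableEq N]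
  (tl hd : E → Option N) (g k a b : E → ℝ) (M0 : ℕ) (e : E) (p q : N) (Z : Finset (List E))
  (η : List E → ℝ) (α β : ℝ),
  (∀ f, 0 < g f) → (∀ f, 0 < k f) → (∀ f, 0 ≤ a f) → (∀ f, 0 ≤ b f) →
  tl e = some p → hd e = some q →
  (∀ z ∈ Z, (∃ P, z = e :: P ∧ Wk tl hd q P p) ∧ wt k z = 1 ∧ 0 ≤ η z) → 0 ≤ α → 0 ≤ β →
  ∃ Z' ⊆ Z, Z'.card ≤ 2 * Fintype.card E + 1 ∧ ∀ z ∈ Z,
    (∃ z' ∈ Z', max (mxl k a z') (η z' * α) ≤ max (mxl k a z) (η z * α) ∧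
      max (mxl k b z') (η z' * β) ≤ max (mxl k b z) (η z * β)) ∨
    ∃ p₁ p₂ : ℝ × ℝ, (∃ L, Fb tl hd g k L M0 a b q p₁) ∧
      (∃ L, Fb hd tl (fun f => (g f)⁻¹) (fun f => (k f)⁻¹) L M0 (fun f => a f / k f)
        (fun f => b f / k f) p p₂) ∧
      k e * p₁.1 ≤ max (mxl k a z) (η z * α) ∧ p₂.1 ≤ max (mxl k a z) (η z * α) ∧
      k e * p₁.2 ≤ max (mxl k b z) (η z * β) ∧ p₂.2 ≤ max (mxl k b z) (η z * β)

/-- The cost of the disposal of a unit at `v`, up to a factor, as a minimum of few maxima. -/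
def S_TP : Prop := ∀ (E N : Type) [Fintype E] [DecidableEq E] [DecidableEq N]
  (tl hd : E → Option N) (g k a b : E → ℝ) (lam : ℝ) (M0 : ℕ) (v : N),
  Crs g k lam M0 → Fintype.card E ≤ M0 → (∀ f, 0 ≤ a f) → (∀ f, 0 ≤ b f) →
  ∃ D : Finset (ℝ × ℝ), D.card ≤ 2 * Fintype.card E ^ 2 + 2 * Fintype.card E + 2 ∧
    (∀ p ∈ D, 0 ≤ p.1 ∧ 0 ≤ p.2) ∧
    (∀ L p, Fb tl hd g k L M0 a b v p → ∃ p' ∈ D, p'.1 ≤ p.1 ∧ p'.2 ≤ p.2) ∧
    (∀ θ : ℝ, 0 < θ → ∀ y : E → ℝ, (∀ f, 0 ≤ y f) → (∀ u, 0 ≤ dd tl hd g y u) →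
      0 < dd tl hd g y v → ∃ p ∈ D, dd tl hd g y v * max p.1 (θ * p.2) ≤
        2 * ∑ f, (a f + θ * b f) * y f) ∧
    ∀ p ∈ D, ∃ y : E → ℝ, (∀ f, 0 ≤ y f) ∧ (∀ u, dd tl hd g y u = if u = v then 1 else 0) ∧
      ∑ f, a f * y f ≤ 20 * (M0 + 1) / lam * p.1 ∧ ∑ f, b f * y f ≤ 20 * (M0 + 1) / lam * p.2

/-- The cost of the circulations through the arc `e`, up to a factor, as a minimum of few
maxima. -/
def S_CORE : Prop := ∃ Q : Polynomial ℕ, ∀ (E N : Type) [Fintype E] [DecidableEq E]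
  [DecidableEq N] (tl hd : E → Option N) (g a b : E → ℝ) (e : E),
  (∀ f, 0 < g f) → (∀ f, 0 ≤ a f) → (∀ f, 0 ≤ b f) →
  ∃ D : Finset (ℝ × ℝ), D.card ≤ Q.eval (Fintype.card E) ∧
    (∀ p ∈ D, 0 ≤ p.1 ∧ 0 ≤ p.2) ∧
    (∀ θ : ℝ, 0 < θ → ∀ y : E → ℝ, (∀ f, 0 ≤ y f) → (∀ u, dd tl hd g y u = 0) → y e = 1 →
      ∃ p ∈ D, max p.1 (θ * p.2) ≤
        2 ^ Q.eval (Fintype.card E) * ∑ f, (a f + θ * b f) * y f) ∧
    ∀ p ∈ D, ∃ y : E → ℝ, (∀ f, 0 ≤ y f) ∧ (∀ u, dd tl hd g y u = 0) ∧ 1 ≤ y e ∧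
      ∑ f, a f * y f ≤ 2 ^ Q.eval (Fintype.card E) * p.1 ∧
      ∑ f, b f * y f ≤ 2 ^ Q.eval (Fintype.card E) * p.2

/-- Every row of `A` has at most two nonzero entries. -/
def Two {m n : ℕ} (A : Matrix (Fin m) (Fin n) ℝ) : Prop :=
  ∀ i, (Finset.univ.filter fun j => A i j ≠ 0).card ≤ 2

/-- The left kernel of a matrix with at most two nonzero entries in every row: the maximum of a
coordinate is always near one of few lines. -/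
def S_BRI : Prop := ∃ Q : Polynomial ℕ, ∀ (K n : ℕ) (A : Matrix (Fin K) (Fin n) ℝ)
  (s : Fin K → ℝ) (e : Fin K), Two A → (∀ i, 0 ≤ s i) →
  ∃ (r : ℕ) (c : Fin r → ℝ) (σ : Fin r → Bool), r ≤ Q.eval K ∧
    ∀ y : ℝ, 0 < mx (lker A) s (Pi.single e 1) (2 ^ y) →
      ∃ i, |lmx (lker A) s (Pi.single e 1) y - (c i + if σ i then y else 0)| ≤ Q.eval K

/-- All coordinates together. -/
def S_PIT : Prop := ∃ Q : Polynomial ℕ, ∀ (K n : ℕ) (A : Matrix (Fin K) (Fin n) ℝ)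
  (s : Fin K → ℝ) (y₀ : ℝ), Two A → (∀ i, 0 ≤ s i) → Pie (Q.eval K) (lker A) s y₀

end Pool.Agent.L7h39.TV
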