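import Pool.Agent.L7h39.TV.Defs

set_option autoImplicit false

/-!
# Graphs with gains: common lemmas
-/

namespace Pool.Agent.L7h39.TV

variable {E N : Type}

/-! ### Products -/

theorem wt_nil (k : E → ℝ) : wt k [] = 1 := rfl

theorem wt_cons (k : E → ℝ) (f : E) (l : List E) : wt k (f :: l) = k f * wt k l := by
  simp [wt]

theorem wt_append (k : E → ℝ) (l l' : List E) : wt k (l ++ l') = wt k l * wt k l' := by
  simp [wt]

theorem wt_pos {k : E → ℝ} (hk : ∀ f, 0 < k f) (l : List E) : 0 < wt k l := by
  induction l with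
  | nil => rw [wt_nil]; exact one_pos
  | cons f l ih => rw [wt_cons]; exact mul_pos (hk f) ih

theorem wt_reverse (k : E → ℝ) (l : List E) : wt k l.reverse = wt k l := by
  induction l with
  | nil => rfl
  | cons f l ih => rw [List.reverse_cons, wt_append, ih, wt_cons, wt_cons, wt_nil]; ring

theorem wt_inv (k : E → ℝ) (l : List E) : wt (fun f => (k f)⁻¹) l = (wt k l)⁻¹ := by
  induction l with
  | nil => simp [wt_nil]
  | cons f l ih => rw [wt_cons, wt_cons, ih, mul_inv]

/-! ### Largest costs -/

theorem mxl_nil (k c : E → ℝ) : mxl k c [] = 0 := rfl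

theorem mxl_cons (k c : E → ℝ) (f : E) (l : List E) :
    mxl k c (f :: l) = max (c f) (k f * mxl k c l) := rfl

theorem mxl_nonneg {k c : E → ℝ} (hc : ∀ f, 0 ≤ c f) (l : List E) : 0 ≤ mxl k c l := by
  cases l with
  | nil => exact le_rfl
  | cons f l => exact (hc f).trans (le_max_left _ _)

theorem mxl_append {k c : E → ℝ} (hk : ∀ f, 0 < k f) (hc : ∀ f, 0 ≤ c f) (l l' : List E) :
    mxl k c (l ++ l') = max (mxl k c l) (wt k l * mxl k c l') := by
  induction l with
  | nil => rw [List.nil_append, mxl_nil, wt_nil, one_mul, max_eq_right (mxl_nonneg hc _)]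
  | cons f l ih =>
    rw [List.cons_append, mxl_cons, mxl_cons, ih, wt_cons,
      mul_max_of_nonneg _ _ (hk f).le, max_assoc, mul_assoc]

theorem mxl_mono {k c c' : E → ℝ} (hk : ∀ f, 0 < k f) (h : ∀ f, c f ≤ c' f) (l : List E) :
    mxl k c l ≤ mxl k c' l := by
  induction l with
  | nil => exact le_rfl
  | cons f l ih => exact max_le_max (h f) (mul_le_mul_of_nonneg_left ih (hk f).le)

theorem mxl_smul {k c : E → ℝ} {θ : ℝ} (hθ : 0 ≤ θ) (l : List E) :
    mxl k (fun f => θ * c f) l = θ * mxl k c l := by
  induction l with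
  | nil => simp [mxl_nil]
  | cons f l ih =>
    rw [mxl_cons, mxl_cons, ih, mul_max_of_nonneg _ _ hθ]
    congr 1
    ring

/-- The cost of the arc `f` in a list. -/
theorem le_mxl {k c : E → ℝ} (hk : ∀ f, 0 < k f) (hc : ∀ f, 0 ≤ c f) (x n : List E) (f : E) :
    wt k x * c f ≤ mxl k c (x ++ f :: n) := by
  rw [mxl_append hk hc]
  refine le_trans ?_ (le_max_right _ _)
  exact mul_le_mul_of_nonneg_left (le_max_left _ _) (wt_pos hk x).le

/-- The largest cost is attained at the first possible place. -/
theorem exists_mxl {k c : E → ℝ} (hk : ∀ f, 0 < k f) (hc : ∀ f, 0 ≤ c f) (l : List E)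
    (h : 0 < mxl k c l) : ∃ (x n : List E) (f : E), l = x ++ f :: n ∧
      mxl k c l = wt k x * c f ∧ mxl k c x < mxl k c l ∧ mxl k c (f :: n) = c f ∧ 0 < c f := by
  induction l with
  | nil => exact absurd h (lt_irrefl _)
  | cons g l ih =>
    by_cases h1 : k g * mxl k c l ≤ c g
    · have e : mxl k c (g :: l) = c g := max_eq_left h1
      refine ⟨[], l, g, rfl, ?_, ?_, e, ?_⟩
      · rw [wt_nil, one_mul, e]
      · rw [mxl_nil]
        exact h
      · rw [← e]
        exact h
    · push Not at h1
      have e : mxl k c (g :: l) = k g * mxl k c l := max_eq_right h1.le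
      have h2 : 0 < mxl k c l := by
        have h3 : 0 < k g * mxl k c l := (hc g).trans_lt h1
        exact pos_of_mul_pos_right h3 (hk g).le
      obtain ⟨x, n, f, rfl, h4, h5, h6, h7⟩ := ih h2
      refine ⟨g :: x, n, f, rfl, ?_, ?_, h6, h7⟩
      · rw [e, wt_cons, h4, mul_assoc]
      · rw [e, mxl_cons]
        exact max_lt h1 (mul_lt_mul_of_pos_left h5 (hk g))

/-! ### Total costs -/

theorem sml_nil (g c : E → ℝ) : sml g c [] = 0 := rfl

theorem sml_cons (g c : E → ℝ) (f : E) (l : List E) :
    sml g c (f :: l) = c f + g f * sml g c l := rfl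

theorem sml_nonneg {g c : E → ℝ} (hg : ∀ f, 0 < g f) (hc : ∀ f, 0 ≤ c f) (l : List E) :
    0 ≤ sml g c l := by
  induction l with
  | nil => exact le_rfl
  | cons f l ih => exact add_nonneg (hc f) (mul_nonneg (hg f).le ih)

theorem sml_append (g c : E → ℝ) (l l' : List E) :
    sml g c (l ++ l') = sml g c l + wt g l * sml g c l' := by
  induction l with
  | nil => rw [List.nil_append, sml_nil, wt_nil]; ring
  | cons f l ih => rw [List.cons_append, sml_cons, sml_cons, ih, wt_cons]; ring

theorem mxl_le_sml {g c : E → ℝ} (hg : ∀ f, 0 < g f) (hc : ∀ f, 0 ≤ c f) (l : List E) :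
    mxl g c l ≤ sml g c l := by
  induction l with
  | nil => exact le_rfl
  | cons f l ih =>
    have h1 := mul_le_mul_of_nonneg_left ih (hg f).le
    have h2 := mul_nonneg (hg f).le (sml_nonneg hg hc l)
    rw [mxl_cons, sml_cons]
    exact max_le (by linarith) (by linarith [hc f])

theorem sml_le {g c : E → ℝ} (hg : ∀ f, 0 < g f) (hc : ∀ f, 0 ≤ c f) (l : List E) :
    sml g c l ≤ l.length * mxl g c l := by
  induction l with
  | nil => simp [sml_nil, mxl_nil]
  | cons f l ih =>
    rw [sml_cons, mxl_cons, List.length_cons]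
    push_cast
    have h1 : g f * sml g c l ≤ l.length * (g f * mxl g c l) := by
      have := mul_le_mul_of_nonneg_left ih (hg f).le
      linarith
    have h2 : (l.length : ℝ) * (g f * mxl g c l) ≤
        l.length * max (c f) (g f * mxl g c l) :=
      mul_le_mul_of_nonneg_left (le_max_right _ _) (Nat.cast_nonneg _)
    have h3 := le_max_left (c f) (g f * mxl g c l)
    linarith

theorem sml_add (g c c' : E → ℝ) (l : List E) :
    sml g (fun f => c f + c' f) l = sml g c l + sml g c' l := by
  induction l with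
  | nil => simp [sml_nil]
  | cons f l ih => rw [sml_cons, sml_cons, sml_cons, ih]; ring

theorem sml_smul (g c : E → ℝ) (θ : ℝ) (l : List E) :
    sml g (fun f => θ * c f) l = θ * sml g c l := by
  induction l with
  | nil => simp [sml_nil]
  | cons f l ih => rw [sml_cons, sml_cons, ih]; ring

/-! ### Flows along lists -/

section

variable [DecidableEq E]

theorem vec_nonneg {g : E → ℝ} (hg : ∀ f, 0 < g f) (l : List E) (e : E) : 0 ≤ vec g l e := by
  induction l with
  | nil => exact le_rfl
  | cons f l ih =>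
    show 0 ≤ (Pi.single f 1 : E → ℝ) e + g f * vec g l e
    have h1 : 0 ≤ (Pi.single f 1 : E → ℝ) e := by
      by_cases h : e = f
      · subst h; simp
      · simp [Pi.single_eq_of_ne h]
    exact add_nonneg h1 (mul_nonneg (hg f).le ih)

theorem vec_cons (g : E → ℝ) (f : E) (l : List E) :
    vec g (f :: l) = Pi.single f 1 + g f • vec g l := rfl

theorem vec_append (g : E → ℝ) (l l' : List E) :
    vec g (l ++ l') = vec g l + wt g l • vec g l' := by
  induction l with
  | nil => rw [List.nil_append, wt_nil, one_smul]; simp [vec]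
  | cons f l ih =>
    rw [List.cons_append, vec_cons, vec_cons, ih, wt_cons, smul_add, smul_smul, add_assoc]

theorem vec_pos_of_mem {g : E → ℝ} (hg : ∀ f, 0 < g f) {l : List E} {e : E} (h : e ∈ l) :
    0 < vec g l e := by
  obtain ⟨x, n, rfl⟩ := List.append_of_mem h
  rw [vec_append, vec_cons]
  show 0 < vec g x e + wt g x * ((Pi.single e 1 : E → ℝ) e + g e * vec g n e)
  rw [Pi.single_eq_same]
  have h1 := vec_nonneg hg x e
  have h2 := mul_pos (wt_pos hg x) (show 0 < 1 + g e * vec g n e by
    have := mul_nonneg (hg e).le (vec_nonneg hg n e)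
    linarith)
  linarith

theorem vec_eq_zero {g : E → ℝ} {l : List E} {e : E} (h : e ∉ l) : vec g l e = 0 := by
  induction l with
  | nil => rfl
  | cons f l ih =>
    rw [List.mem_cons, not_or] at h
    show (Pi.single f 1 : E → ℝ) e + g f * vec g l e = 0
    rw [ih h.2, Pi.single_eq_of_ne h.1]
    ring

variable [Fintype E]

theorem sum_vec (g c : E → ℝ) (l : List E) : ∑ f, c f * vec g l f = sml g c l := by
  induction l with
  | nil => simp [vec, sml_nil]
  | cons f l ih =>
    have h1 : ∀ e, c e * vec g (f :: l) e =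
        c e * (Pi.single f 1 : E → ℝ) e + g f * (c e * vec g l e) := by
      intro e
      rw [vec_cons]
      show c e * ((Pi.single f 1 : E → ℝ) e + g f * vec g l e) = _
      ring
    simp only [h1]
    rw [Finset.sum_add_distrib, ← Finset.mul_sum, ih, sml_cons]
    congr 1
    rw [Finset.sum_eq_single f]
    · simp
    · intro e _ he
      rw [Pi.single_eq_of_ne he, mul_zero]
    · intro h
      exact absurd (Finset.mem_univ _) h

end

section

variable [Fintype E] [DecidableEq N] (tl hd : E → Option N) (g : E → ℝ)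

theorem dd_zero (u : N) : dd tl hd g 0 u = 0 := by
  simp [dd]

theorem dd_add (y y' : E → ℝ) (u : N) :
    dd tl hd g (y + y') u = dd tl hd g y u + dd tl hd g y' u := by
  unfold dd
  rw [← Finset.sum_add_distrib]
  refine Finset.sum_congr rfl fun f _ => ?_
  simp only [Pi.add_apply]
  split_ifs <;> ring

theorem dd_smul (t : ℝ) (y : E → ℝ) (u : N) :
    dd tl hd g (t • y) u = t * dd tl hd g y u := by
  unfold dd
  rw [Finset.mul_sum]
  refine Finset.sum_congr rfl fun f _ => ?_
  simp only [Pi.smul_apply, smul_eq_mul]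
  split_ifs <;> ring

theorem dd_sub (y y' : E → ℝ) (u : N) :
    dd tl hd g (y - y') u = dd tl hd g y u - dd tl hd g y' u := by
  unfold dd
  rw [← Finset.sum_sub_distrib]
  refine Finset.sum_congr rfl fun f _ => ?_
  simp only [Pi.sub_apply]
  split_ifs <;> ring

theorem dd_sum {ι : Type*} (s : Finset ι) (y : ι → E → ℝ) (u : N) :
    dd tl hd g (∑ i ∈ s, y i) u = ∑ i ∈ s, dd tl hd g (y i) u := by
  classical
  induction s using Finset.induction_on with
  | empty => simp [dd]
  | insert i s hi ih => rw [Finset.sum_insert hi, Finset.sum_insert hi, dd_add, ih]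

variable [DecidableEq E]

theorem dd_single (e : E) (u : N) : dd tl hd g (Pi.single e 1) u =
    (if tl e = some u then 1 else 0) - if hd e = some u then g e else 0 := by
  unfold dd
  rw [Finset.sum_eq_single e]
  · simp
  · intro f _ hf
    rw [Pi.single_eq_of_ne hf]
    simp
  · intro h
    exact absurd (Finset.mem_univ _) h

theorem dd_vec {v w : N} {l : List E} (h : Wk tl hd v l w) (u : N) :
    dd tl hd g (vec g l) u = (if u = v then 1 else 0) - wt g l * if u = w then 1 else 0 := by
  induction h with
  | nil v =>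
    rw [show vec g ([] : List E) = 0 from rfl, dd_zero, wt_nil]
    ring
  | @cons v u' w f l h1 h2 _ ih =>
    rw [vec_cons, dd_add, dd_smul, ih, dd_single, wt_cons, h1, h2]
    simp only [Option.some.injEq, eq_comm (a := v), eq_comm (a := u')]
    split_ifs <;> ring

end

/-! ### Walks -/

variable {tl hd : E → Option N}

theorem Wk.append {v u w : N} {l l' : List E} (h : Wk tl hd v l u) (h' : Wk tl hd u l' w) :
    Wk tl hd v (l ++ l') w := by
  induction h with
  | nil v => exact h'
  | cons h1 h2 _ ih => exact Wk.cons h1 h2 (ih h')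

theorem Wk.nil_eq {v w : N} (h : Wk tl hd v [] w) : v = w := by
  cases h
  rfl

theorem Wk.cons_inv {v w : N} {f : E} {l : List E} (h : Wk tl hd v (f :: l) w) :
    tl f = some v ∧ ∃ u, hd f = some u ∧ Wk tl hd u l w := by
  cases h with
  | cons h1 h2 h3 => exact ⟨h1, _, h2, h3⟩

theorem Wk.split {v w : N} {l l' : List E} (h : Wk tl hd v (l ++ l') w) :
    ∃ u, Wk tl hd v l u ∧ Wk tl hd u l' w := by
  induction l generalizing v with
  | nil => exact ⟨v, Wk.nil v, h⟩
  | cons f l ih =>
    obtain ⟨h1, u, h2, h3⟩ := Wk.cons_inv h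
    obtain ⟨u', h4, h5⟩ := ih h3
    exact ⟨u', Wk.cons h1 h2 h4, h5⟩

theorem Wk.unique {v w w' : N} {l : List E} (h : Wk tl hd v l w) (h' : Wk tl hd v l w') :
    w = w' := by
  induction h with
  | nil v => exact h'.nil_eq
  | cons h1 h2 h3 ih =>
    obtain ⟨_, u, h4, h5⟩ := h'.cons_inv
    rw [h2] at h4
    obtain rfl := Option.some.inj h4
    exact ih h5

theorem Wk.snoc {v u w : N} {l : List E} {f : E} (h : Wk tl hd v l u) (h1 : tl f = some u)
    (h2 : hd f = some w) : Wk tl hd v (l ++ [f]) w :=
  h.append (Wk.cons h1 h2 (Wk.nil w))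

theorem Wk.reverse {v w : N} {l : List E} (h : Wk tl hd v l w) : Wk hd tl w l.reverse v := by
  induction h with
  | nil v => exact Wk.nil v
  | cons h1 h2 _ ih =>
    rw [List.reverse_cons]
    exact ih.snoc h2 h1

/-- The reversed list. -/
theorem mxl_reverse {k c : E → ℝ} (hk : ∀ f, 0 < k f) (hc : ∀ f, 0 ≤ c f) (l : List E) :
    mxl (fun f => (k f)⁻¹) (fun f => c f / k f) l.reverse = mxl k c l / wt k l := by
  have hk' : ∀ f, 0 < (k f)⁻¹ := fun f => inv_pos.2 (hk f)
  have hc' : ∀ f, 0 ≤ c f / k f := fun f => div_nonneg (hc f) (hk f).le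
  induction l with
  | nil => simp [mxl_nil]
  | cons f l ih =>
    rw [List.reverse_cons, mxl_append hk' hc', ih, wt_inv, wt_reverse, mxl_cons, mxl_cons,
      mxl_nil, wt_cons, mul_zero, max_eq_left (hc' f)]
    have h1 := wt_pos hk l
    have h2 := hk f
    have e1 : (wt k l)⁻¹ * (c f / k f) = c f / (k f * wt k l) := by
      field_simp
    have e2 : mxl k c l / wt k l = k f * mxl k c l / (k f * wt k l) := by
      field_simp
    rw [max_comm, e1, e2]
    rcases le_total (c f) (k f * mxl k c l) with h | h
    · rw [max_eq_right h, max_eq_right (div_le_div_of_nonneg_right h (by positivity))]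
    · rw [max_eq_left h, max_eq_left (div_le_div_of_nonneg_right h (by positivity))]

end Pool.Agent.L7h39.TV
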