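import Pool.Agent.L7h39.TV.Stm2
import Pool.Agent.Y648.CX.T_MX

set_option autoImplicit false

/-!
# The maximum of a coordinate in the left kernel of a matrix with two entries per row
-/

namespace Pool.Agent.L7h39.TV

open Matrix Pool.Agent.Y648.CS.V

/-- The lines given by a finite set of pairs. -/
theorem lines (D : Finset (ℝ × ℝ)) (τ : ℝ) : ∃ (r : ℕ) (c : Fin r → ℝ) (σ : Fin r → Bool),
    r ≤ 2 * D.card ∧ ∀ p ∈ D, ∀ b : Bool, ∃ i, σ i = b ∧
      c i = τ * (if b then Real.logb 2 p.2 else Real.logb 2 p.1) := by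
  classical
  obtain ⟨S, hS⟩ : ∃ S : Finset ((ℝ × ℝ) × Bool), S = D ×ˢ Finset.univ := ⟨_, rfl⟩
  obtain ⟨ι, hι⟩ : ∃ ι : Fin S.card → (ℝ × ℝ) × Bool, ι = fun i =>
    ((S.equivFin.symm i : S) : (ℝ × ℝ) × Bool) := ⟨_, rfl⟩
  refine ⟨S.card, fun i => τ * (if (ι i).2 then Real.logb 2 (ι i).1.2 else
    Real.logb 2 (ι i).1.1), fun i => (ι i).2, ?_, fun p hp b => ?_⟩
  · rw [hS, Finset.card_product]
    simp [mul_comm]
  · have hm : (p, b) ∈ S := by
      rw [hS]
      simp [hp]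
    refine ⟨S.equivFin ⟨(p, b), hm⟩, ?_, ?_⟩
    · simp [hι]
    · simp [hι]

theorem cap_two {K : ℕ} {s : Fin K → ℝ} (hs : ∀ i, 0 ≤ s i) {t : ℝ} (ht : 0 < t) (i : Fin K) :
    cap s t i * (1 + 1 / t * s i) ≤ 2 ∧ 1 ≤ cap s t i * (1 + 1 / t * s i) := by
  unfold cap
  split_ifs with h
  · have h1 : 1 / t * s i ≤ 1 := by
      rw [div_mul_eq_mul_div, one_mul, div_le_one ht]
      exact h
    have h2 : 0 ≤ 1 / t * s i := mul_nonneg (by positivity) (hs i)
    constructor <;> linarith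
  · push Not at h
    have h0 : 0 < s i := ht.trans h
    have h1 : t / s i * (1 + 1 / t * s i) = t / s i + 1 := by
      field_simp
    have h2 : t / s i ≤ 1 := (div_le_one h0).2 h.le
    have h3 : 0 ≤ t / s i := by positivity
    rw [h1]
    constructor <;> linarith

theorem bri : S_LCP → S_BRI := by
  rintro ⟨q, hq⟩
  refine ⟨2 * q + Polynomial.X + 1, ?_⟩
  intro K n A s e hA hs
  obtain ⟨D, d1, d2, d3, d4⟩ := hq K n A (fun _ => 1) s e hA (fun _ => zero_le_one) hs
  obtain ⟨R, hR⟩ : ∃ R : ℕ, R = q.eval K := ⟨_, rfl⟩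
  obtain ⟨r, c, σ, hr, hc⟩ := lines D (-1)
  have hev : (2 * q + Polynomial.X + 1 : Polynomial ℕ).eval K = 2 * q.eval K + K + 1 := by
    simp
  rw [hev]
  rw [← hR] at d1 d3 d4 ⊢
  refine ⟨r, c, σ, by omega, fun y hy => ?_⟩
  obtain ⟨t, ht⟩ : ∃ t : ℝ, t = 2 ^ y := ⟨_, rfl⟩
  have ht0 : 0 < t := by rw [ht]; positivity
  have hθ : 0 < 1 / t := by positivity
  obtain ⟨m, hm⟩ : ∃ m : ℝ, m = mx (lker A) s (Pi.single e 1) t := ⟨_, rfl⟩
  rw [← ht, ← hm] at hy
  have hMX := t_MX K (lker A) s (Pi.single e 1) hs t ht0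
  rw [← hm] at hMX
  obtain ⟨⟨x, ⟨hx1, hx2⟩, hx3⟩, hub, -, -⟩ := hMX
  rw [single_one_dotProduct] at hx3
  have hK : 0 < K := Fin.pos_iff_nonempty.2 ⟨e⟩
  -- lower bound
  obtain ⟨p, hp, hp2⟩ := d3 (1 / t) hθ (m⁻¹ • x) ((lker A).smul_mem _ hx1)
    (fun i => mul_nonneg (inv_nonneg.2 hy.le) (hx2 i).1) (by
      rw [Pi.smul_apply, smul_eq_mul, hx3, inv_mul_cancel₀ hy.ne'])
  have hsum : ∑ i, (1 + 1 / t * s i) * (m⁻¹ • x) i ≤ m⁻¹ * (2 * K) := by
    have h1 : ∀ i, (1 + 1 / t * s i) * (m⁻¹ • x) i ≤ m⁻¹ * 2 := by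
      intro i
      rw [Pi.smul_apply, smul_eq_mul]
      have h2 := (cap_two hs ht0 i).1
      have h3 : 0 ≤ 1 + 1 / t * s i := by
        have := mul_nonneg hθ.le (hs i)
        linarith
      have h4 := mul_le_mul_of_nonneg_left (hx2 i).2 h3
      have h5 : (1 + 1 / t * s i) * (m⁻¹ * x i) = m⁻¹ * ((1 + 1 / t * s i) * x i) := by ring
      rw [h5]
      refine mul_le_mul_of_nonneg_left ?_ (inv_nonneg.2 hy.le)
      linarith
    calc _ ≤ ∑ _i : Fin K, m⁻¹ * 2 := Finset.sum_le_sum fun i _ => h1 i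
      _ = _ := by
        rw [Finset.sum_const, Finset.card_univ, Fintype.card_fin, nsmul_eq_mul]
        ring
  obtain ⟨φ, hφ⟩ : ∃ φ : ℝ, φ = max p.1 (1 / t * p.2) := ⟨_, rfl⟩
  rw [← hφ] at hp2
  have hup : φ * m ≤ 2 ^ (R + 1) * K := by
    have h1 : φ ≤ 2 ^ R * (m⁻¹ * (2 * K)) :=
      hp2.trans (mul_le_mul_of_nonneg_left hsum (by positivity))
    have h2 := mul_le_mul_of_nonneg_right h1 hy.le
    have h3 : 2 ^ R * (m⁻¹ * (2 * (K : ℝ))) * m = 2 ^ (R + 1) * K := by
      rw [pow_succ]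
      field_simp
    rwa [h3] at h2
  -- upper bound
  obtain ⟨z, hz1, hz2, hz3, hz4, hz5⟩ := d4 p hp
  have hp1 : 0 < p.1 := by
    have h1 := Finset.single_le_sum (f := fun i => (1 : ℝ) * z i)
      (fun i _ => by rw [one_mul]; exact hz2 i) (Finset.mem_univ e)
    simp only [one_mul, hz3] at h1
    simp only [one_mul] at hz4
    have h2 : 0 < 2 ^ R * p.1 := lt_of_lt_of_le one_pos (h1.trans hz4)
    exact pos_of_mul_pos_right h2 (by positivity)
  have hφ0 : 0 < φ := by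
    rw [hφ]
    exact hp1.trans_le (le_max_left _ _)
  obtain ⟨X, hX⟩ : ∃ X : ℝ, X = 2 ^ (R + 1) * φ := ⟨_, rfl⟩
  have hX0 : 0 < X := by rw [hX]; positivity
  have hcost : ∑ i, (1 + 1 / t * s i) * z i ≤ X := by
    have h1 : ∑ i, (1 + 1 / t * s i) * z i = ∑ i, (1 : ℝ) * z i + 1 / t * ∑ i, s i * z i := by
      rw [Finset.mul_sum, ← Finset.sum_add_distrib]
      exact Finset.sum_congr rfl fun i _ => by ring
    have h2 := mul_le_mul_of_nonneg_left hz5 hθ.le
    have h3 : p.1 ≤ φ := by rw [hφ]; exact le_max_left _ _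
    have h4 : 1 / t * p.2 ≤ φ := by rw [hφ]; exact le_max_right _ _
    have h5 : (0 : ℝ) < 2 ^ R := by positivity
    have h6 := mul_le_mul_of_nonneg_left h3 h5.le
    have h7 := mul_le_mul_of_nonneg_left h4 h5.le
    have h8 : 1 / t * (2 ^ R * p.2) = 2 ^ R * (1 / t * p.2) := by ring
    rw [h8] at h2
    rw [h1, hX, pow_succ]
    linarith
  have hlow : 1 ≤ m * X := by
    have h1 := hub (X⁻¹ • z) ⟨(lker A).smul_mem _ hz1, fun i => by
      rw [Pi.smul_apply, smul_eq_mul]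
      refine ⟨mul_nonneg (inv_nonneg.2 hX0.le) (hz2 i), ?_⟩
      rw [inv_mul_le_iff₀ hX0]
      have h2 := (cap_two hs ht0 i).2
      have h3 := Finset.single_le_sum (f := fun i => (1 + 1 / t * s i) * z i)
        (fun j _ => mul_nonneg (by
          have := mul_nonneg hθ.le (hs j)
          linarith) (hz2 j)) (Finset.mem_univ i)
      have h4 : 0 ≤ cap s t i := Mx.cap_nonneg s ht0 i
      calc z i = 1 * z i := (one_mul _).symm
        _ ≤ cap s t i * (1 + 1 / t * s i) * z i := mul_le_mul_of_nonneg_right h2 (hz2 i)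
        _ = cap s t i * ((1 + 1 / t * s i) * z i) := by ring
        _ ≤ cap s t i * X := mul_le_mul_of_nonneg_left (h3.trans hcost) h4
        _ = X * cap s t i := mul_comm _ _⟩
    rw [single_one_dotProduct, Pi.smul_apply, smul_eq_mul, hz3, mul_one] at h1
    rw [inv_le_iff_one_le_mul₀ hX0] at h1
    exact h1
  -- logarithms
  have hlφ : |Real.logb 2 m + Real.logb 2 φ| ≤ R + 1 + K := by
    have h1 : Real.logb 2 m + Real.logb 2 φ = Real.logb 2 (φ * m) := by
      rw [Real.logb_mul hφ0.ne' hy.ne']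
      ring
    rw [h1, abs_le]
    constructor
    · have h2 : (2 : ℝ) ^ (-((R : ℝ) + 1)) ≤ φ * m := by
        have h3 : (2 : ℝ) ^ (-((R : ℝ) + 1)) = (2 ^ (R + 1))⁻¹ := by
          rw [Real.rpow_neg (by norm_num), ← Real.rpow_natCast]
          push_cast
          rfl
        rw [h3, inv_le_iff_one_le_mul₀ (by positivity)]
        rw [hX] at hlow
        linarith
      have h4 := (Real.logb_le_logb (b := 2) (by norm_num) (by positivity)
        (mul_pos hφ0 hy)).2 h2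
      rw [Real.logb_rpow (by norm_num) (by norm_num)] at h4
      have : (0 : ℝ) ≤ K := Nat.cast_nonneg K
      linarith
    · have h2 : φ * m ≤ (2 : ℝ) ^ ((R : ℝ) + 1 + K) := by
        have h3 : (K : ℝ) ≤ 2 ^ K := by exact_mod_cast Nat.lt_two_pow_self.le
        have h4 : (2 : ℝ) ^ ((R : ℝ) + 1 + K) = 2 ^ (R + 1) * 2 ^ K := by
          rw [Real.rpow_add (by norm_num), Real.rpow_natCast, ← Real.rpow_natCast 2 (R + 1)]
          push_cast
          rfl
        rw [h4]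
        exact hup.trans (mul_le_mul_of_nonneg_left h3 (by positivity))
      have h4 := (Real.logb_le_logb (b := 2) (by norm_num) (mul_pos hφ0 hy)
        (by positivity)).2 h2
      rwa [Real.logb_rpow (by norm_num) (by norm_num)] at h4
  have hlt : Real.logb 2 t = y := by rw [ht, Real.logb_rpow (by norm_num) (by norm_num)]
  have hlm : lmx (lker A) s (Pi.single e 1) y = Real.logb 2 m := by
    unfold lmx
    rw [← ht, ← hm]
  have hq0 : (0 : ℝ) ≤ R := Nat.cast_nonneg _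
  rw [hlm]
  push_cast
  rcases le_total (1 / t * p.2) p.1 with h | h
  · obtain ⟨i, hi1, hi2⟩ := hc p hp false
    refine ⟨i, ?_⟩
    rw [hi2, hi1]
    rw [hφ, max_eq_left h] at hlφ
    have h1 : Real.logb 2 m - (-1 * (if false = true then Real.logb 2 p.2 else Real.logb 2 p.1) +
        if false = true then y else 0) = Real.logb 2 m + Real.logb 2 p.1 := by
      simp
    rw [h1]
    linarith
  · obtain ⟨i, hi1, hi2⟩ := hc p hp true
    refine ⟨i, ?_⟩
    rw [hi2, hi1]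
    rw [hφ, max_eq_right h] at hlφ
    have hp20 : 0 < p.2 := by
      have h1 : 0 < 1 / t * p.2 := hp1.trans_le h
      exact pos_of_mul_pos_right h1 hθ.le
    have h1 : Real.logb 2 m - (-1 * (if true = true then Real.logb 2 p.2 else Real.logb 2 p.1) +
        if true = true then y else 0) = Real.logb 2 m + Real.logb 2 (1 / t * p.2) := by
      rw [Real.logb_mul hθ.ne' hp20.ne', one_div, Real.logb_inv, hlt]
      simp
      ring
    rw [h1]
    linarith

end Pool.Agent.L7h39.TV
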