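import Pool.Agent.L7h39.TV.Core

set_option autoImplicit false

/-!
# The circulations through an arc: all cases
-/

namespace Pool.Agent.L7h39.TV

variable {E N : Type}

/-- The statement for one arc. -/
def One [Fintype E] [DecidableEq N] (tl hd : E → Option N) (g a b : E → ℝ) (e : E) (R : ℕ)
    (G : ℝ) : Prop :=
  ∃ D : Finset (ℝ × ℝ), D.card ≤ R ∧
      (∀ x ∈ D, 0 ≤ x.1 ∧ 0 ≤ x.2) ∧
      (∀ θ : ℝ, 0 < θ → ∀ y : E → ℝ, (∀ f, 0 ≤ y f) → (∀ u, dd tl hd g y u = 0) → y e = 1 →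
        ∃ x ∈ D, max x.1 (θ * x.2) ≤ G * ∑ f, (a f + θ * b f) * y f) ∧
      ∀ x ∈ D, ∃ y : E → ℝ, (∀ f, 0 ≤ y f) ∧ (∀ u, dd tl hd g y u = 0) ∧ 1 ≤ y e ∧
        ∑ f, a f * y f ≤ G * x.1 ∧ ∑ f, b f * y f ≤ G * x.2

theorem single_nonneg [DecidableEq E] (e f : E) : 0 ≤ (Pi.single e 1 : E → ℝ) f := by
  by_cases h : f = e
  · subst h; simp
  · simp [Pi.single_eq_of_ne h]

theorem cost_e [Fintype E] [DecidableEq E] {a b y : E → ℝ} {θ : ℝ} (hθ : 0 < θ)
    (ha : ∀ f, 0 ≤ a f) (hb : ∀ f, 0 ≤ b f) (hy : ∀ f, 0 ≤ y f) {e : E} (hye : y e = 1) :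
    a e ≤ ∑ f, (a f + θ * b f) * y f ∧ θ * b e ≤ ∑ f, (a f + θ * b f) * y f := by
  have h1 := Finset.single_le_sum (f := fun f => (a f + θ * b f) * y f)
    (fun f _ => mul_nonneg (add_nonneg (ha f) (mul_nonneg hθ.le (hb f))) (hy f))
    (Finset.mem_univ e)
  simp only [hye, mul_one] at h1
  have h2 := mul_nonneg hθ.le (hb e)
  have h3 := ha e
  constructor <;> linarith

theorem caseA [Fintype E] [DecidableEq E] [DecidableEq N] (tl hd : E → Option N)
    (g a b : E → ℝ) (e : E) (ha : ∀ f, 0 ≤ a f) (hb : ∀ f, 0 ≤ b f)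
    (hp : tl e = none) (hq : hd e = none) (G : ℝ) (hG : 1 ≤ G) : One tl hd g a b e 1 G := by
  refine ⟨{(a e, b e)}, by simp, ?_, ?_, ?_⟩
  · intro x hx
    rw [Finset.mem_singleton] at hx
    rw [hx]
    exact ⟨ha e, hb e⟩
  · intro θ hθ y hy _ hye
    obtain ⟨h1, h2⟩ := cost_e hθ ha hb hy hye
    refine ⟨(a e, b e), by simp, ?_⟩
    have h3 : 0 ≤ ∑ f, (a f + θ * b f) * y f := (ha e).trans h1
    have h4 : ∑ f, (a f + θ * b f) * y f ≤ G * ∑ f, (a f + θ * b f) * y f := by nlinarith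
    exact (max_le h1 h2).trans h4
  · intro x hx
    rw [Finset.mem_singleton] at hx
    subst hx
    refine ⟨Pi.single e 1, single_nonneg e, fun u => ?_, ?_, ?_, ?_⟩
    · rw [dd_single, hp, hq]
      simp
    · rw [Pi.single_eq_same]
    · rw [single_cost]
      nlinarith [ha e]
    · rw [single_cost]
      nlinarith [hb e]

theorem sub_nonneg_single [DecidableEq E] {y : E → ℝ} (hy : ∀ f, 0 ≤ y f) {e : E}
    (hye : y e = 1) (f : E) : 0 ≤ (y - (Pi.single e 1 : E → ℝ)) f := by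
  rw [Pi.sub_apply]
  by_cases h : f = e
  · subst h
    rw [Pi.single_eq_same, hye]
    norm_num
  · rw [Pi.single_eq_of_ne h, sub_zero]
    exact hy f

theorem cost_sub [Fintype E] [DecidableEq E] {c y : E → ℝ} (hc : ∀ f, 0 ≤ c f) (e : E) :
    ∑ f, c f * (y - (Pi.single e 1 : E → ℝ)) f ≤ ∑ f, c f * y f := by
  refine Finset.sum_le_sum fun f _ => mul_le_mul_of_nonneg_left ?_ (hc f)
  rw [Pi.sub_apply]
  linarith [single_nonneg e f]

theorem caseB (hTP : S_TP) [Fintype E] [DecidableEq E] [DecidableEq N] (tl hd : E → Option N)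
    (g k a b : E → ℝ) (lam : ℝ) (e : E) (p : N) (hC : Crs g k lam (Fintype.card E + 1))
    (ha : ∀ f, 0 ≤ a f) (hb : ∀ f, 0 ≤ b f) (hp : tl e = some p) (hq : hd e = none) (G : ℝ)
    (hG4 : 4 ≤ G) (hG : 1 + 40 * (((Fintype.card E + 1 : ℕ) : ℝ) + 1) / lam ≤ G) :
    One tl hd g a b e (2 * Fintype.card E ^ 2 + 2 * Fintype.card E + 2) G := by
  classical
  obtain ⟨DS, s1, s2, s3, s4, s5⟩ := prod_side hTP tl hd g k a b lam (Fintype.card E + 1) p hC
    (Nat.le_succ _) ha hb (by omega)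
  have hsub : ∀ u, dd tl hd g (Pi.single e 1) u = if u = p then 1 else 0 := by
    intro u
    rw [dd_single, hp, hq]
    simp [eq_comm]
  refine ⟨DS.image (fun l => (max (a e) l.1, max (b e) l.2)),
    Finset.card_image_le.trans s1, ?_, ?_, ?_⟩
  · intro x hx
    obtain ⟨l, -, rfl⟩ := Finset.mem_image.1 hx
    exact ⟨(ha e).trans (le_max_left _ _), (hb e).trans (le_max_left _ _)⟩
  · intro θ hθ y hy hdd hye
    obtain ⟨h1, h2⟩ := cost_e hθ ha hb hy hye
    have hy' : ∀ u, dd tl hd g (y - Pi.single e 1) u = if u = p then -1 else 0 := by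
      intro u
      rw [dd_sub, hdd, hsub]
      split_ifs <;> ring
    obtain ⟨l, hl, hl2⟩ := s4 θ hθ (y - Pi.single e 1) (sub_nonneg_single hy hye)
      (fun u => by rw [hy']; split_ifs <;> norm_num) (by rw [hy', if_pos rfl]; norm_num)
    rw [hy', if_pos rfl, neg_neg, one_mul] at hl2
    have h3 := cost_sub (c := fun f => a f + θ * b f) (y := y)
      (fun f => add_nonneg (ha f) (mul_nonneg hθ.le (hb f))) e
    have h5 : 0 ≤ ∑ f, (a f + θ * b f) * y f := (ha e).trans h1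
    have h6 : 4 * ∑ f, (a f + θ * b f) * y f ≤ G * ∑ f, (a f + θ * b f) * y f :=
      mul_le_mul_of_nonneg_right hG4 h5
    refine ⟨_, Finset.mem_image_of_mem _ hl, ?_⟩
    rw [mul_max_of_nonneg _ _ hθ.le]
    have h7 := le_max_left l.1 (θ * l.2)
    have h8 := le_max_right l.1 (θ * l.2)
    exact max_le (max_le (by linarith) (by linarith)) (max_le (by linarith) (by linarith))
  · intro x hx
    obtain ⟨l, hl, rfl⟩ := Finset.mem_image.1 hx
    obtain ⟨F, v1, v2, v3, v4⟩ := s5 l hl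
    obtain ⟨C, hCd⟩ : ∃ C : ℝ, C = 40 * (((Fintype.card E + 1 : ℕ) : ℝ) + 1) / lam := ⟨_, rfl⟩
    rw [← hCd] at v3 v4 hG
    have hC0 : 0 ≤ C := by
      rw [hCd]
      have := hC.2.2.1
      positivity
    have cost : ∀ (c : E → ℝ) (t : ℝ), 0 ≤ c e → 0 ≤ t → ∑ f, c f * F f ≤ C * t →
        ∑ f, c f * ((Pi.single e 1 : E → ℝ) + F) f ≤ G * max (c e) t := by
      intro c t h1 h2 h3
      have h4 : ∑ f, c f * ((Pi.single e 1 : E → ℝ) + F) f = c e + ∑ f, c f * F f := by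
        rw [show c e = ∑ f, c f * (Pi.single e 1 : E → ℝ) f from (single_cost c e).symm,
          ← Finset.sum_add_distrib]
        exact Finset.sum_congr rfl fun f _ => by simp only [Pi.add_apply]; ring
      have h5 := le_max_left (c e) t
      have h6 := mul_le_mul_of_nonneg_left (le_max_right (c e) t) hC0
      have h7 : 0 ≤ max (c e) t := h1.trans h5
      have h8 := mul_le_mul_of_nonneg_right hG h7
      rw [h4]
      linarith
    refine ⟨Pi.single e 1 + F, fun f => add_nonneg (single_nonneg e f) (v1 f), fun u => ?_,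
      ?_, cost a l.1 (ha e) (s2 l hl).1 v3, cost b l.2 (hb e) (s2 l hl).2 v4⟩
    · rw [dd_add, hsub, v2]
      split_ifs <;> ring
    · rw [Pi.add_apply, Pi.single_eq_same]
      linarith [v1 e]

theorem caseC (hTP : S_TP) [Fintype E] [DecidableEq E] [DecidableEq N] (tl hd : E → Option N)
    (g k a b : E → ℝ) (lam : ℝ) (e : E) (q : N) (hC : Crs g k lam (Fintype.card E + 1))
    (ha : ∀ f, 0 ≤ a f) (hb : ∀ f, 0 ≤ b f) (hp : tl e = none) (hq : hd e = some q) (G : ℝ)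
    (hG4 : 4 ≤ G) (hG : 1 + 40 * (((Fintype.card E + 1 : ℕ) : ℝ) + 1) / lam ≤ G) :
    One tl hd g a b e (2 * Fintype.card E ^ 2 + 2 * Fintype.card E + 2) G := by
  classical
  have hg := hC.1
  have hk := hC.2.1
  have hke : k e ≤ 2 * g e := by
    have := hC.ge (l := [e]) (by simp)
    simpa [wt] using this
  have hge : g e ≤ 2 * k e := by
    have := hC.le (l := [e]) (by simp)
    simpa [wt] using this
  obtain ⟨DQ, q1, q2, q3, q4, q5⟩ := hTP E N tl hd g k a b lam (Fintype.card E + 1) q hC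
    (Nat.le_succ _) ha hb
  have hsub : ∀ u, dd tl hd g (Pi.single e 1) u = if u = q then - g e else 0 := by
    intro u
    rw [dd_single, hp, hq]
    simp only [Option.some.injEq, eq_comm (a := q), reduceCtorEq, if_false]
    split_ifs <;> ring
  refine ⟨DQ.image (fun l => (max (a e) (k e * l.1), max (b e) (k e * l.2))),
    Finset.card_image_le.trans q1, ?_, ?_, ?_⟩
  · intro x hx
    obtain ⟨l, -, rfl⟩ := Finset.mem_image.1 hx
    exact ⟨(ha e).trans (le_max_left _ _), (hb e).trans (le_max_left _ _)⟩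
  · intro θ hθ y hy hdd hye
    obtain ⟨h1, h2⟩ := cost_e hθ ha hb hy hye
    have hy' : ∀ u, dd tl hd g (y - Pi.single e 1) u = if u = q then g e else 0 := by
      intro u
      rw [dd_sub, hdd, hsub]
      split_ifs <;> ring
    obtain ⟨l, hl, hl2⟩ := q4 θ hθ (y - Pi.single e 1) (sub_nonneg_single hy hye)
      (fun u => by rw [hy']; split_ifs; exacts [(hg e).le, le_rfl])
      (by rw [hy', if_pos rfl]; exact hg e)
    rw [hy', if_pos rfl] at hl2
    have h3 := cost_sub (c := fun f => a f + θ * b f) (y := y)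
      (fun f => add_nonneg (ha f) (mul_nonneg hθ.le (hb f))) e
    have h5 : 0 ≤ ∑ f, (a f + θ * b f) * y f := (ha e).trans h1
    have h6 : 4 * ∑ f, (a f + θ * b f) * y f ≤ G * ∑ f, (a f + θ * b f) * y f :=
      mul_le_mul_of_nonneg_right hG4 h5
    refine ⟨_, Finset.mem_image_of_mem _ hl, ?_⟩
    have h9 : k e * max l.1 (θ * l.2) ≤ 4 * ∑ f, (a f + θ * b f) * y f := by
      have := mul_le_mul_of_nonneg_right hke ((q2 l hl).1.trans (le_max_left l.1 (θ * l.2)))
      linarith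
    rw [mul_max_of_nonneg _ _ (hk e).le] at h9
    rw [mul_max_of_nonneg _ _ hθ.le]
    have h7 := le_max_left (k e * l.1) (k e * (θ * l.2))
    have h8 := le_max_right (k e * l.1) (k e * (θ * l.2))
    have h10 : θ * (k e * l.2) = k e * (θ * l.2) := by ring
    rw [h10]
    exact max_le (max_le (by linarith) (by linarith)) (max_le (by linarith) (by linarith))
  · intro x hx
    obtain ⟨l, hl, rfl⟩ := Finset.mem_image.1 hx
    obtain ⟨F, v1, v2, v3, v4⟩ := q5 l hl
    obtain ⟨C, hCd⟩ : ∃ C : ℝ, C = 20 * (((Fintype.card E + 1 : ℕ) : ℝ) + 1) / lam := ⟨_, rfl⟩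
    have e2 : 40 * (((Fintype.card E + 1 : ℕ) : ℝ) + 1) / lam = 2 * C := by rw [hCd]; ring
    rw [← hCd] at v3 v4
    rw [e2] at hG
    have hC0 : 0 ≤ C := by
      rw [hCd]
      have := hC.2.2.1
      positivity
    have cost : ∀ (c : E → ℝ) (t : ℝ), (∀ f, 0 ≤ c f) → 0 ≤ t → ∑ f, c f * F f ≤ C * t →
        ∑ f, c f * ((Pi.single e 1 : E → ℝ) + g e • F) f ≤ G * max (c e) (k e * t) := by
      intro c t h1 h2 h3
      have h4 : ∑ f, c f * ((Pi.single e 1 : E → ℝ) + g e • F) f =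
          c e + g e * ∑ f, c f * F f := by
        rw [sum_lin, single_cost]
      have h5 := le_max_left (c e) (k e * t)
      have h6 := mul_le_mul_of_nonneg_left (le_max_right (c e) (k e * t)) hC0
      have h7 : 0 ≤ max (c e) (k e * t) := (h1 e).trans h5
      have h8 := mul_le_mul_of_nonneg_right hG h7
      have h9 : g e * ∑ f, c f * F f ≤ 2 * k e * (C * t) :=
        mul_le_mul hge h3 (Finset.sum_nonneg fun f _ => mul_nonneg (h1 f) (v1 f))
          (by linarith [hk e])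
      rw [h4]
      linarith
    refine ⟨Pi.single e 1 + g e • F, fun f => add_nonneg (single_nonneg e f)
      (mul_nonneg (hg e).le (v1 f)), fun u => ?_, ?_, cost a l.1 ha (q2 l hl).1 v3,
      cost b l.2 hb (q2 l hl).2 v4⟩
    · rw [dd_add, dd_smul, hsub, v2]
      split_ifs <;> ring
    · rw [Pi.add_apply, Pi.single_eq_same]
      have := mul_nonneg (hg e).le (v1 e)
      simp only [Pi.smul_apply, smul_eq_mul]
      linarith

theorem One.mono [Fintype E] [DecidableEq N] {tl hd : E → Option N} {g a b : E → ℝ} {e : E}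
    {R R' : ℕ} {G G' : ℝ} (h : One tl hd g a b e R G) (hR : R ≤ R') (hG : G ≤ G')
    (ha : ∀ f, 0 ≤ a f) (hb : ∀ f, 0 ≤ b f) : One tl hd g a b e R' G' := by
  obtain ⟨D, h1, h2, h3, h4⟩ := h
  refine ⟨D, h1.trans hR, h2, ?_, ?_⟩
  · intro θ hθ y hy hdd hye
    obtain ⟨x, hx, hx2⟩ := h3 θ hθ y hy hdd hye
    refine ⟨x, hx, hx2.trans (mul_le_mul_of_nonneg_right hG ?_)⟩
    exact Finset.sum_nonneg fun f _ =>
      mul_nonneg (add_nonneg (ha f) (mul_nonneg hθ.le (hb f))) (hy f)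
  · intro x hx
    obtain ⟨y, y1, y2, y3, y4, y5⟩ := h4 x hx
    exact ⟨y, y1, y2, y3, y4.trans (mul_le_mul_of_nonneg_right hG (h2 x hx).1),
      y5.trans (mul_le_mul_of_nonneg_right hG (h2 x hx).2)⟩

open Polynomial in
/-- The polynomial. -/
noncomputable def QC : Polynomial ℕ :=
  (2 * X ^ 2 + 2 * X + 2) * (2 * X ^ 2 + 2 * X + 2) +
    2 * ((2 * X ^ 2 + 2 * X + 2) * (2 * X + 1)) + (2 * X + 1) + (2 * X ^ 2 + 9 * X + 21)

theorem QC_eval (n : ℕ) : QC.eval n =
    (2 * n ^ 2 + 2 * n + 2) * (2 * n ^ 2 + 2 * n + 2) +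
      2 * ((2 * n ^ 2 + 2 * n + 2) * (2 * n + 1)) + (2 * n + 1) + (2 * n ^ 2 + 9 * n + 21) := by
  simp [QC]

theorem G_le {n : ℕ} {lam : ℝ} (h0 : 0 < lam) (h : 1 ≤ lam * (8 * ((n + 1 : ℕ) : ℝ) + 8) ^ n) :
    30000 * (20 * ((n : ℝ) + 1 + 1) / lam) / lam ≤ 2 ^ QC.eval n := by
  have h1 : 8 * ((n + 1 : ℕ) : ℝ) + 8 ≤ 2 ^ (n + 4) := by
    have h2 : n + 2 ≤ 2 ^ (n + 1) := by
      induction n with
      | zero => norm_num
      | succ n ih =>
        have : n + 2 ≤ 2 ^ (n + 1) := by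
          have := Nat.lt_two_pow_self (n := n + 1)
          omega
        rw [pow_succ]
        omega
    have h3 : (n : ℝ) + 2 ≤ 2 ^ (n + 1) := by exact_mod_cast h2
    have h4 : (2 : ℝ) ^ (n + 4) = 8 * 2 ^ (n + 1) := by
      rw [show n + 4 = n + 1 + 3 by ring, pow_add]
      norm_num
      ring
    rw [h4]
    push_cast
    linarith
  have h2 : (8 * ((n + 1 : ℕ) : ℝ) + 8) ^ n ≤ 2 ^ ((n + 4) * n) := by
    rw [pow_mul]
    exact pow_le_pow_left₀ (by positivity) h1 n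
  have h3 : 1 / lam ≤ 2 ^ ((n + 4) * n) := by
    rw [div_le_iff₀ h0]
    calc (1 : ℝ) ≤ lam * (8 * ((n + 1 : ℕ) : ℝ) + 8) ^ n := h
      _ ≤ lam * 2 ^ ((n + 4) * n) := mul_le_mul_of_nonneg_left h2 h0.le
      _ = _ := by ring
  have h4 : 30000 * (20 * ((n : ℝ) + 1 + 1) / lam) / lam =
      600000 * ((n : ℝ) + 2) * ((1 / lam) * (1 / lam)) := by
    field_simp
    ring
  have h5 : (n : ℝ) + 2 ≤ 2 ^ (n + 1) := by
    have h2 : n + 2 ≤ 2 ^ (n + 1) := by
      have := Nat.lt_two_pow_self (n := n + 1)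
      omega
    exact_mod_cast h2
  have h6 : (0 : ℝ) ≤ 1 / lam := by positivity
  rw [h4]
  calc 600000 * ((n : ℝ) + 2) * ((1 / lam) * (1 / lam)) ≤
      2 ^ 20 * 2 ^ (n + 1) * (2 ^ ((n + 4) * n) * 2 ^ ((n + 4) * n)) := by
        refine mul_le_mul (mul_le_mul (by norm_num) h5 (by positivity) (by norm_num))
          (mul_le_mul h3 h3 h6 (by positivity)) (by positivity) (by positivity)
    _ = 2 ^ (20 + (n + 1) + ((n + 4) * n + (n + 4) * n)) := by
        rw [← pow_add, ← pow_add, ← pow_add]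
    _ ≤ 2 ^ QC.eval n := by
        refine pow_le_pow_right₀ (by norm_num) ?_
        rw [QC_eval]
        have : 20 + (n + 1) + ((n + 4) * n + (n + 4) * n) = 2 * n ^ 2 + 9 * n + 21 := by ring
        rw [this]
        exact Nat.le_add_left _ _

theorem t_CORE : S_GAP → S_TP → S_MIX → S_BET → S_CORE := by
  intro hGAP hTP hMIX hBET
  refine ⟨QC, ?_⟩
  intro E N _ _ _ tl hd g a b e hg ha hb
  obtain ⟨k, lam, hC, hl⟩ := hGAP E (Fintype.card E + 1) g hg
  obtain ⟨n, hn⟩ : ∃ n, n = Fintype.card E := ⟨_, rfl⟩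
  have hl0 := hC.2.2.1
  have hl1 := hC.2.2.2.1
  obtain ⟨G, hG⟩ : ∃ G : ℝ, G = 30000 * (20 * ((n : ℝ) + 1 + 1) / lam) / lam := ⟨_, rfl⟩
  have hGQ : G ≤ 2 ^ QC.eval (Fintype.card E) := by
    rw [hG, ← hn]
    refine G_le hl0 ?_
    rw [hn]
    exact hl
  have hn0 : (0 : ℝ) ≤ n := Nat.cast_nonneg n
  have hB : 1 + 40 * (((Fintype.card E + 1 : ℕ) : ℝ) + 1) / lam ≤ G := by
    have e1 : (((Fintype.card E + 1 : ℕ) : ℝ) + 1) = (n : ℝ) + 1 + 1 := by
      rw [hn]; push_cast; ring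
    rw [e1, hG]
    have h1 : 1 ≤ 20 * ((n : ℝ) + 1 + 1) / lam := by
      rw [le_div_iff₀ hl0]
      linarith
    have h2 : 20 * ((n : ℝ) + 1 + 1) / lam ≤ 20 * ((n : ℝ) + 1 + 1) / lam / lam := by
      rw [le_div_iff₀ hl0]
      nlinarith
    have h3 : 40 * ((n : ℝ) + 1 + 1) / lam = 2 * (20 * ((n : ℝ) + 1 + 1) / lam) := by ring
    have h4 : 30000 * (20 * ((n : ℝ) + 1 + 1) / lam) / lam =
        30000 * (20 * ((n : ℝ) + 1 + 1) / lam / lam) := by ring
    rw [h3, h4]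
    linarith
  have hG4 : 4 ≤ G := by
    refine le_trans ?_ hB
    have e1 : (((Fintype.card E + 1 : ℕ) : ℝ) + 1) = (n : ℝ) + 1 + 1 := by
      rw [hn]; push_cast; ring
    rw [e1]
    have : 3 ≤ 40 * ((n : ℝ) + 1 + 1) / lam := by
      rw [le_div_iff₀ hl0]
      linarith
    linarith
  have hcard : 2 * Fintype.card E ^ 2 + 2 * Fintype.card E + 2 ≤ QC.eval (Fintype.card E) := by
    rw [QC_eval]
    have h1 : (2 * Fintype.card E ^ 2 + 2 * Fintype.card E + 2) * 1 ≤
      (2 * Fintype.card E ^ 2 + 2 * Fintype.card E + 2) *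
        (2 * Fintype.card E ^ 2 + 2 * Fintype.card E + 2) :=
      Nat.mul_le_mul_left _ (by omega)
    omega
  have hone : One tl hd g a b e (QC.eval (Fintype.card E)) (2 ^ QC.eval (Fintype.card E)) := by
    rcases hp : tl e with _ | p
    · rcases hq : hd e with _ | q
      · exact (caseA tl hd g a b e ha hb hp hq G (by linarith)).mono
          (by rw [QC_eval]; omega) hGQ ha hb
      · exact (caseC hTP tl hd g k a b lam e q hC ha hb hp hq G hG4 hB).mono hcard hGQ ha hb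
    · rcases hq : hd e with _ | q
      · exact (caseB hTP tl hd g k a b lam e p hC ha hb hp hq G hG4 hB).mono hcard hGQ ha hb
      · have h := coreD hTP hMIX hBET tl hd g k a b lam e p q hC ha hb hp hq n _ hn rfl G hG
        have h' : One tl hd g a b e _ G := h
        refine h'.mono ?_ hGQ ha hb
        rw [QC_eval, hn]
        exact Nat.le_add_right _ _
  exact hone

end Pool.Agent.L7h39.TV
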