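import Pool.Agent.L7h39.TV.Dual
import Pool.Agent.L7h39.TV.Bri
import Pool.Agent.L7h39.TV.CoreT
import Pool.Agent.L7h32.TV.Brd
import Pool.Agent.L7h32.TV.Gap
import Pool.Agent.L7h32.TV.Tp
import Pool.Agent.L7h80.TV.Mix
import Pool.Agent.L7h80.TV.Pone
import Pool.Agent.L7h50.TV.Rem
import Pool.Agent.L7h50.TV.TroMain
import Pool.Agent.L7h50.TV.BetMain

set_option autoImplicit false

/-!
# The parts together (with helper32, helper50, helper80)
-/

namespace Pool.Agent.L7h39.TV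

open Matrix Pool.Agent.NPC Pool.Agent.H558R2 Pool.Agent.H622R3.SM Pool.Agent.W920.FC
open Pool.Agent.Y648.CS Pool.Agent.Y648.CS.V Pool.Agent.Y529.CS

theorem core_all : S_CORE :=
  t_CORE Pool.Agent.L7h32.TV.gap (Pool.Agent.L7h32.TV.tp Pool.Agent.L7h80.TV.s_P1
    Pool.Agent.L7h50.TV.s_TRO) Pool.Agent.L7h80.TV.s_MIX Pool.Agent.L7h50.TV.s_BET

theorem POK.mono {N N' : ℕ} {Ls : Submodule ℝ (ℕ → ℝ)} {X : Finset ℕ} (h : POK N Ls X)
    (hN : N ≤ N') : POK N' Ls X := by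
  obtain ⟨K, φ, V, h1, h2⟩ := h
  exact ⟨K, φ, V, h1, fun s y₀ hs => (h2 s y₀ hs).mono' hN⟩

/-- The two classes. -/
theorem pok_all (hLCP : S_CORE → S_LCP) : ∃ Q : Polynomial ℕ, ∀ (m n n' : ℕ)
    (A : Matrix (Fin m) (Fin n) ℝ) (A' : Matrix (Fin m) (Fin n') ℝ) (b : Fin m → ℝ), Two A' →
    (lker A' = lker A ∨ lker A = ann (lker A')) → POK2 (Q.eval m) A b := by
  have hL := hLCP core_all
  obtain ⟨Q, hQ⟩ := pok_two (t_PIT (bri hL))
  obtain ⟨R, hR⟩ := pok_dual Pool.Agent.L7h50.TV.con (Pool.Agent.L7h32.TV.brd hL)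
  refine ⟨Q + R, ?_⟩
  intro m n n' A A' b hA h
  rcases h with h | h
  · obtain ⟨h1, h2⟩ := hQ m n n' A A' b hA h
    exact ⟨h1.mono (by rw [Polynomial.eval_add]; omega),
      fun B => (h2 B).mono (by rw [Polynomial.eval_add]; omega)⟩
  · obtain ⟨h1, h2⟩ := hR m n n' A A' b hA h
    exact ⟨h1.mono (by rw [Polynomial.eval_add]; omega),
      fun B => (h2 B).mono (by rw [Polynomial.eval_add]; omega)⟩

end Pool.Agent.L7h39.TV
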