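import Pool.Agent.L7h39.TV.Sid

set_option autoImplicit false

/-!
# The circulations through an arc with tail and head
-/

namespace Pool.Agent.L7h39.TV

variable {E N : Type}

/-- The pair of costs of a closed walk with compensation. -/
noncomputable def pr (k a b : E → ℝ) (η : ℝ) (l : ℝ × ℝ) (z : List E) : ℝ × ℝ :=
  (max (mxl k a z) (η * l.1), max (mxl k b z) (η * l.2))

/-- The pair of costs of a disposal and a production. -/
noncomputable def pa (k a b : E → ℝ) (e : E) (x : (ℝ × ℝ) × (ℝ × ℝ)) : ℝ × ℝ :=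
  (max (a e) (max (k e * x.1.1) x.2.1), max (b e) (max (k e * x.1.2) x.2.2))

theorem phi_le {x y : ℝ × ℝ} {θ : ℝ} (hθ : 0 < θ) (h1 : x.1 ≤ y.1) (h2 : x.2 ≤ y.2) :
    max x.1 (θ * x.2) ≤ max y.1 (θ * y.2) :=
  max_le_max h1 (mul_le_mul_of_nonneg_left h2 hθ.le)

theorem phi_pa {k a b : E → ℝ} {e : E} {x : (ℝ × ℝ) × (ℝ × ℝ)} {θ X : ℝ} (hθ : 0 < θ)
    (h1 : a e ≤ X) (h2 : θ * b e ≤ X) (h3 : k e * max x.1.1 (θ * x.1.2) ≤ X)
    (hk : 0 < k e) (h4 : max x.2.1 (θ * x.2.2) ≤ X) :
    max (pa k a b e x).1 (θ * (pa k a b e x).2) ≤ X := by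
  unfold pa
  rw [mul_max_of_nonneg _ _ hk.le] at h3
  simp only
  rw [mul_max_of_nonneg _ _ hθ.le, mul_max_of_nonneg _ _ hθ.le]
  refine max_le (max_le h1 (max_le ?_ ?_)) (max_le h2 (max_le ?_ ?_))
  · exact (le_max_left _ _).trans h3
  · exact (le_max_left _ _).trans h4
  · refine le_trans (le_of_eq ?_) ((le_max_right _ _).trans h3)
    ring
  · exact (le_max_right _ _).trans h4

theorem phi_pr {k a b : E → ℝ} {η : ℝ} {l : ℝ × ℝ} {z : List E} {θ X : ℝ} (hθ : 0 < θ)
    (hη : 0 ≤ η) (h1 : mxl k a z ≤ X) (h2 : θ * mxl k b z ≤ X)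
    (h3 : η * max l.1 (θ * l.2) ≤ X) :
    max (pr k a b η l z).1 (θ * (pr k a b η l z).2) ≤ X := by
  unfold pr
  rw [mul_max_of_nonneg _ _ hη] at h3
  simp only
  rw [mul_max_of_nonneg _ _ hθ.le]
  refine max_le (max_le h1 ((le_max_left _ _).trans h3)) (max_le h2 ?_)
  refine le_trans (le_of_eq ?_) ((le_max_right _ _).trans h3)
  ring

theorem sub_rpow {lam : ℝ} (h0 : 0 < lam) (h1 : lam ≤ 1) :
    lam / 4 ≤ 1 - (2 : ℝ) ^ (-(7 * lam / 8)) ∧ lam / 4 ≤ (2 : ℝ) ^ (7 * lam / 8) - 1 := by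
  have hl : (1 : ℝ) / 2 ≤ Real.log 2 := by
    have := Real.log_two_gt_d9
    linarith
  have e1 : (2 : ℝ) ^ (7 * lam / 8) = Real.exp (Real.log 2 * (7 * lam / 8)) := by
    rw [Real.rpow_def_of_pos (by norm_num)]
  have h2 : 7 * lam / 16 ≤ Real.log 2 * (7 * lam / 8) := by nlinarith
  have h3 : 1 + 7 * lam / 16 ≤ (2 : ℝ) ^ (7 * lam / 8) := by
    rw [e1]
    have := Real.add_one_le_exp (Real.log 2 * (7 * lam / 8))
    linarith
  refine ⟨?_, by linarith⟩
  rw [Real.rpow_neg (by norm_num)]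
  have h4 : ((2 : ℝ) ^ (7 * lam / 8))⁻¹ ≤ (1 + 7 * lam / 16)⁻¹ :=
    inv_anti₀ (by linarith) h3
  have h5 : (1 + 7 * lam / 16)⁻¹ ≤ 1 - lam / 4 := by
    rw [inv_eq_one_div, div_le_iff₀ (by linarith)]
    nlinarith
  linarith

/-- The gain of a closed walk, if its coarse gain is not `1`. -/
theorem gap_cases {g k : E → ℝ} {lam : ℝ} {M : ℕ} (h : Crs g k lam M) {l : List E}
    (hl : l.length ≤ M) (h1 : wt k l ≠ 1) :
    (1 < wt g l ∧ lam / 4 ≤ wt g l - 1) ∨ (wt g l < 1 ∧ lam / 4 ≤ 1 - wt g l) := by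
  obtain ⟨hg, hk, h2, h3, h4⟩ := h
  obtain ⟨a1, a2, a3⟩ := h4 l hl
  obtain ⟨s1, s2⟩ := sub_rpow h2 h3
  have p : (0 : ℝ) < 2 ^ (lam / 8) := by positivity
  rcases a3 with a3 | a3 | a3
  · exact absurd a3 h1
  · left
    have h5 : (2 : ℝ) ^ lam ≤ 2 ^ (lam / 8) * wt g l := a3.trans a2
    have h6 : (2 : ℝ) ^ lam = 2 ^ (lam / 8) * 2 ^ (7 * lam / 8) := by
      rw [← Real.rpow_add (by norm_num)]
      congr 1
      ring
    rw [h6] at h5
    have h7 := le_of_mul_le_mul_left h5 p
    constructor <;> linarith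
  · right
    have h5 : wt g l ≤ 2 ^ (lam / 8) * 2 ^ (-lam) :=
      a1.trans (mul_le_mul_of_nonneg_left a3 p.le)
    have h6 : (2 : ℝ) ^ (lam / 8) * 2 ^ (-lam) = 2 ^ (-(7 * lam / 8)) := by
      rw [← Real.rpow_add (by norm_num)]
      congr 1
      ring
    rw [h6] at h5
    constructor <;> linarith

theorem single_cost [Fintype E] [DecidableEq E] (c : E → ℝ) (e : E) :
    ∑ f, c f * (Pi.single e 1 : E → ℝ) f = c e := by
  rw [Finset.sum_eq_single e]
  · simp
  · intro f _ hf
    rw [Pi.single_eq_of_ne hf, mul_zero]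
  · intro h
    exact absurd (Finset.mem_univ _) h

theorem sum_lin [Fintype E] (c y y' : E → ℝ) (t : ℝ) :
    ∑ f, c f * (y + t • y') f = ∑ f, c f * y f + t * ∑ f, c f * y' f := by
  rw [Finset.mul_sum, ← Finset.sum_add_distrib]
  refine Finset.sum_congr rfl fun f _ => ?_
  simp only [Pi.add_apply, Pi.smul_apply, smul_eq_mul]
  ring

set_option maxHeartbeats 1000000 in
theorem coreD (hTP : S_TP) (hMIX : S_MIX) (hBET : S_BET) [Fintype E] [DecidableEq E]
    [DecidableEq N] (tl hd : E → Option N) (g k a b : E → ℝ) (lam : ℝ) (e : E) (p q : N)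
    (hC : Crs g k lam (Fintype.card E + 1)) (ha : ∀ f, 0 ≤ a f) (hb : ∀ f, 0 ≤ b f)
    (hp : tl e = some p) (hq : hd e = some q) (n d : ℕ) (hn : n = Fintype.card E)
    (hd' : d = 2 * n ^ 2 + 2 * n + 2) (G : ℝ)
    (hG : G = 30000 * (20 * ((n : ℝ) + 1 + 1) / lam) / lam) :
    ∃ D : Finset (ℝ × ℝ), D.card ≤ d * d + 2 * (d * (2 * n + 1)) + (2 * n + 1) ∧
      (∀ x ∈ D, 0 ≤ x.1 ∧ 0 ≤ x.2) ∧
      (∀ θ : ℝ, 0 < θ → ∀ y : E → ℝ, (∀ f, 0 ≤ y f) → (∀ u, dd tl hd g y u = 0) → y e = 1 →
        ∃ x ∈ D, max x.1 (θ * x.2) ≤ G * ∑ f, (a f + θ * b f) * y f) ∧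
      ∀ x ∈ D, ∃ y : E → ℝ, (∀ f, 0 ≤ y f) ∧ (∀ u, dd tl hd g y u = 0) ∧ 1 ≤ y e ∧
        ∑ f, a f * y f ≤ G * x.1 ∧ ∑ f, b f * y f ≤ G * x.2 := by
  classical
  obtain ⟨C, hCd⟩ : ∃ C : ℝ, C = 20 * ((n : ℝ) + 1 + 1) / lam := ⟨_, rfl⟩
  have hg := hC.1
  have hk := hC.2.1
  have hl0 := hC.2.2.1
  have hl1 := hC.2.2.2.1
  have hn0 : (0 : ℝ) ≤ n := Nat.cast_nonneg n
  have hC1 : 20 * ((n : ℝ) + 1 + 1) ≤ C := by
    rw [hCd, le_div_iff₀ hl0]
    nlinarith
  have hC0 : 40 ≤ C := by linarith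
  have hCl : C ≤ C / lam := by
    rw [le_div_iff₀ hl0]
    nlinarith
  have hGC : G = 30000 * (C / lam) := by rw [hG, hCd]; ring
  have hM0 : (((Fintype.card E + 1 : ℕ) : ℝ) + 1) = (n : ℝ) + 1 + 1 := by
    rw [hn]; push_cast; ring
  obtain ⟨DQ, q1, q2, q3, q4, q5⟩ := hTP E N tl hd g k a b lam (Fintype.card E + 1) q hC
    (Nat.le_succ _) ha hb
  obtain ⟨DP, p1, p2, p3, p4, p5⟩ := hTP E N tl hd g k a b lam (Fintype.card E + 1) p hC
    (Nat.le_succ _) ha hb
  obtain ⟨DS, s1, s2, s3, s4, s5⟩ := prod_side hTP tl hd g k a b lam (Fintype.card E + 1) p hC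
    (Nat.le_succ _) ha hb (by omega)
  rw [hM0, ← hCd] at q5 p5
  have e40 : 40 * (((Fintype.card E + 1 : ℕ) : ℝ) + 1) / lam = 2 * C := by
    rw [hM0, hCd]; ring
  rw [e40] at s5
  rw [← hn, ← hd'] at q1 p1 s1
  -- the closed walks
  obtain ⟨ZZ, hZZ⟩ : ∃ ZZ : Finset (List E), ZZ = (List.finite_length_le E
    (Fintype.card E + 1)).toFinset.filter
      (fun z => (∃ P, z = e :: P ∧ Wk tl hd q P p) ∧ wt k z = 1) := ⟨_, rfl⟩
  have mZZ : ∀ z, z ∈ ZZ ↔ z.length ≤ Fintype.card E + 1 ∧
      (∃ P, z = e :: P ∧ Wk tl hd q P p) ∧ wt k z = 1 := by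
    intro z
    rw [hZZ, Finset.mem_filter, Set.Finite.mem_toFinset]
    rfl
  -- the choices
  have hBT : ∀ l : ℝ × ℝ, l ∈ DP → ∃ Z' ⊆ ZZ.filter (fun z => 1 < wt g z),
      Z'.card ≤ 2 * n + 1 ∧ ∀ z ∈ ZZ.filter (fun z => 1 < wt g z),
      (∃ z' ∈ Z', (pr k a b (wt g z' - 1) l z').1 ≤ (pr k a b (wt g z - 1) l z).1 ∧
        (pr k a b (wt g z' - 1) l z').2 ≤ (pr k a b (wt g z - 1) l z).2) ∨
      ∃ p₁ p₂ : ℝ × ℝ, (∃ L, Fb tl hd g k L (Fintype.card E + 1) a b q p₁) ∧
        (∃ L, Fb hd tl (fun f => (g f)⁻¹) (fun f => (k f)⁻¹) L (Fintype.card E + 1)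
          (fun f => a f / k f) (fun f => b f / k f) p p₂) ∧
        k e * p₁.1 ≤ (pr k a b (wt g z - 1) l z).1 ∧ p₂.1 ≤ (pr k a b (wt g z - 1) l z).1 ∧
        k e * p₁.2 ≤ (pr k a b (wt g z - 1) l z).2 ∧ p₂.2 ≤ (pr k a b (wt g z - 1) l z).2 := by
    intro l hl
    rw [hn]
    refine hBET E N tl hd g k a b (Fintype.card E + 1) e p q _ (fun z => wt g z - 1) l.1 l.2
      hg hk ha hb hp hq ?_ (p2 l hl).1 (p2 l hl).2
    intro z hz
    rw [Finset.mem_filter, mZZ] at hz
    exact ⟨hz.1.2.1, hz.1.2.2, by linarith [hz.2]⟩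
  have hBS : ∀ l : ℝ × ℝ, l ∈ DS → ∃ Z' ⊆ ZZ.filter (fun z => wt g z < 1),
      Z'.card ≤ 2 * n + 1 ∧ ∀ z ∈ ZZ.filter (fun z => wt g z < 1),
      (∃ z' ∈ Z', (pr k a b (1 - wt g z') l z').1 ≤ (pr k a b (1 - wt g z) l z).1 ∧
        (pr k a b (1 - wt g z') l z').2 ≤ (pr k a b (1 - wt g z) l z).2) ∨
      ∃ p₁ p₂ : ℝ × ℝ, (∃ L, Fb tl hd g k L (Fintype.card E + 1) a b q p₁) ∧
        (∃ L, Fb hd tl (fun f => (g f)⁻¹) (fun f => (k f)⁻¹) L (Fintype.card E + 1)
          (fun f => a f / k f) (fun f => b f / k f) p p₂) ∧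
        k e * p₁.1 ≤ (pr k a b (1 - wt g z) l z).1 ∧ p₂.1 ≤ (pr k a b (1 - wt g z) l z).1 ∧
        k e * p₁.2 ≤ (pr k a b (1 - wt g z) l z).2 ∧ p₂.2 ≤ (pr k a b (1 - wt g z) l z).2 := by
    intro l hl
    rw [hn]
    refine hBET E N tl hd g k a b (Fintype.card E + 1) e p q _ (fun z => 1 - wt g z) l.1 l.2
      hg hk ha hb hp hq ?_ (s2 l hl).1 (s2 l hl).2
    intro z hz
    rw [Finset.mem_filter, mZZ] at hz
    exact ⟨hz.1.2.1, hz.1.2.2, by linarith [hz.2]⟩
  have hB0 : ∃ Z' ⊆ ZZ.filter (fun z => wt g z = 1),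
      Z'.card ≤ 2 * n + 1 ∧ ∀ z ∈ ZZ.filter (fun z => wt g z = 1),
      (∃ z' ∈ Z', (pr k a b 0 (0, 0) z').1 ≤ (pr k a b 0 (0, 0) z).1 ∧
        (pr k a b 0 (0, 0) z').2 ≤ (pr k a b 0 (0, 0) z).2) ∨
      ∃ p₁ p₂ : ℝ × ℝ, (∃ L, Fb tl hd g k L (Fintype.card E + 1) a b q p₁) ∧
        (∃ L, Fb hd tl (fun f => (g f)⁻¹) (fun f => (k f)⁻¹) L (Fintype.card E + 1)
          (fun f => a f / k f) (fun f => b f / k f) p p₂) ∧
        k e * p₁.1 ≤ (pr k a b 0 (0, 0) z).1 ∧ p₂.1 ≤ (pr k a b 0 (0, 0) z).1 ∧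
        k e * p₁.2 ≤ (pr k a b 0 (0, 0) z).2 ∧ p₂.2 ≤ (pr k a b 0 (0, 0) z).2 := by
    rw [hn]
    refine hBET E N tl hd g k a b (Fintype.card E + 1) e p q _ (fun _ => 0) 0 0
      hg hk ha hb hp hq ?_ le_rfl le_rfl
    intro z hz
    rw [Finset.mem_filter, mZZ] at hz
    exact ⟨hz.1.2.1, hz.1.2.2, le_rfl⟩
  choose! ZT t1 t2 t3 using hBT
  choose! ZS r1 r2 r3 using hBS
  obtain ⟨Z0, z1, z2, z3⟩ := hB0
  obtain ⟨D, hD⟩ : ∃ D : Finset (ℝ × ℝ), D = ((DQ ×ˢ DS).image (pa k a b e) ∪
    (DP.biUnion (fun l => (ZT l).image (fun z => pr k a b (wt g z - 1) l z)) ∪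
    DS.biUnion (fun l => (ZS l).image (fun z => pr k a b (1 - wt g z) l z)))) ∪
    Z0.image (fun z => pr k a b 0 (0, 0) z) := ⟨_, rfl⟩
  have mD : ∀ x, x ∈ D ↔ (((∃ l₁ ∈ DQ, ∃ l₂ ∈ DS, pa k a b e (l₁, l₂) = x) ∨
      ((∃ l ∈ DP, ∃ z ∈ ZT l, pr k a b (wt g z - 1) l z = x) ∨
      (∃ l ∈ DS, ∃ z ∈ ZS l, pr k a b (1 - wt g z) l z = x))) ∨
      (∃ z ∈ Z0, pr k a b 0 (0, 0) z = x)) := by
    intro x
    rw [hD]
    simp only [Finset.mem_union, Finset.mem_biUnion, Finset.mem_image, Finset.mem_product]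
    constructor
    · rintro ((⟨l, ⟨h1, h2⟩, h3⟩ | h) | h)
      · exact Or.inl (Or.inl ⟨l.1, h1, l.2, h2, h3⟩)
      · exact Or.inl (Or.inr h)
      · exact Or.inr h
    · rintro ((⟨l₁, h1, l₂, h2, h3⟩ | h) | h)
      · exact Or.inl (Or.inl ⟨(l₁, l₂), ⟨h1, h2⟩, h3⟩)
      · exact Or.inl (Or.inr h)
      · exact Or.inr h
  -- domination
  have hdomA : ∀ (θ X : ℝ) (z : List E) (x : ℝ × ℝ) (p₁ p₂ : ℝ × ℝ), 0 < θ → z ∈ ZZ →
      mxl k a z ≤ x.1 → mxl k b z ≤ x.2 →
      (∃ L, Fb tl hd g k L (Fintype.card E + 1) a b q p₁) →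
      (∃ L, Fb hd tl (fun f => (g f)⁻¹) (fun f => (k f)⁻¹) L (Fintype.card E + 1)
          (fun f => a f / k f) (fun f => b f / k f) p p₂) →
      k e * p₁.1 ≤ x.1 → p₂.1 ≤ x.1 → k e * p₁.2 ≤ x.2 → p₂.2 ≤ x.2 →
      max x.1 (θ * x.2) ≤ X → ∃ x ∈ D, max x.1 (θ * x.2) ≤ X := by
    intro θ X z x p₁ p₂ hθ hz ha1 hb1 h1 h2 h3 h4 h5 h6 hX
    obtain ⟨L, h1⟩ := h1
    obtain ⟨L', h2⟩ := h2
    obtain ⟨l₁, m1, m2, m3⟩ := q3 L p₁ h1
    obtain ⟨l₂, m4, m5, m6⟩ := s3 L' p₂ h2
    obtain ⟨-, ⟨P, rfl, -⟩, -⟩ := (mZZ z).1 hz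
    refine ⟨pa k a b e (l₁, l₂), (mD _).2 (Or.inl (Or.inl ⟨l₁, m1, l₂, m4, rfl⟩)),
      (phi_le hθ ?_ ?_).trans hX⟩
    · exact max_le ((le_max_left _ _).trans ha1) (max_le
        ((mul_le_mul_of_nonneg_left m2 (hk e).le).trans h3) (m5.trans h4))
    · exact max_le ((le_max_left _ _).trans hb1) (max_le
        ((mul_le_mul_of_nonneg_left m3 (hk e).le).trans h5) (m6.trans h6))
  -- flows along the closed walks
  have hvec : ∀ z ∈ ZZ, (∀ f, 0 ≤ vec g z f) ∧ 1 ≤ vec g z e ∧
      (∀ u, dd tl hd g (vec g z) u = if u = p then 1 - wt g z else 0) ∧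
      ∑ f, a f * vec g z f ≤ C * mxl k a z ∧ ∑ f, b f * vec g z f ≤ C * mxl k b z := by
    intro z hz
    obtain ⟨c1, ⟨P, rfl, c2⟩, c3⟩ := (mZZ z).1 hz
    have hW : Wk tl hd p (e :: P) p := Wk.cons hp hq c2
    refine ⟨vec_nonneg hg _, ?_, fun u => ?_, ?_, ?_⟩
    · show 1 ≤ (Pi.single e 1 : E → ℝ) e + g e * vec g P e
      rw [Pi.single_eq_same]
      have := mul_nonneg (hg e).le (vec_nonneg hg P e)
      linarith
    · rw [dd_vec tl hd g hW]
      split_ifs <;> ring
    · rw [sum_vec]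
      have h1 := sml_le hg ha (e :: P)
      have h2 := mxl_crs' hC ha c1
      have h3 : (((e :: P).length : ℕ) : ℝ) ≤ n + 1 := by
        rw [hn]
        exact_mod_cast c1
      have h4 : (0 : ℝ) ≤ mxl g a (e :: P) := mxl_nonneg ha _
      have h5 : (0 : ℝ) ≤ mxl k a (e :: P) := mxl_nonneg ha _
      calc _ ≤ (((e :: P).length : ℕ) : ℝ) * mxl g a (e :: P) := h1
        _ ≤ ((n : ℝ) + 1) * (2 * mxl k a (e :: P)) := by gcongr
        _ ≤ C * mxl k a (e :: P) := by nlinarith
    · rw [sum_vec]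
      have h1 := sml_le hg hb (e :: P)
      have h2 := mxl_crs' hC hb c1
      have h3 : (((e :: P).length : ℕ) : ℝ) ≤ n + 1 := by
        rw [hn]
        exact_mod_cast c1
      have h4 : (0 : ℝ) ≤ mxl g b (e :: P) := mxl_nonneg hb _
      have h5 : (0 : ℝ) ≤ mxl k b (e :: P) := mxl_nonneg hb _
      calc _ ≤ (((e :: P).length : ℕ) : ℝ) * mxl g b (e :: P) := h1
        _ ≤ ((n : ℝ) + 1) * (2 * mxl k b (e :: P)) := by gcongr
        _ ≤ C * mxl k b (e :: P) := by nlinarith
  have hGC0 : C ≤ G := by rw [hGC]; linarith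
  have hG5 : 5 * C ≤ G := by rw [hGC]; linarith
  refine ⟨D, ?_, ?_, ?_, ?_⟩
  · rw [hD]
    refine (Finset.card_union_le _ _).trans ?_
    refine Nat.add_le_add ((Finset.card_union_le _ _).trans ?_)
      (Finset.card_image_le.trans z2)
    have c1 : ((DQ ×ˢ DS).image (pa k a b e)).card ≤ d * d :=
      Finset.card_image_le.trans (by
        rw [Finset.card_product]
        exact Nat.mul_le_mul q1 s1)
    have c2 : (DP.biUnion (fun l => (ZT l).image
        (fun z => pr k a b (wt g z - 1) l z))).card ≤ d * (2 * n + 1) :=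
      (Finset.card_biUnion_le_card_mul _ _ _ fun l hl =>
        Finset.card_image_le.trans (t2 l hl)).trans (Nat.mul_le_mul_right _ p1)
    have c3 : (DS.biUnion (fun l => (ZS l).image
        (fun z => pr k a b (1 - wt g z) l z))).card ≤ d * (2 * n + 1) :=
      (Finset.card_biUnion_le_card_mul _ _ _ fun l hl =>
        Finset.card_image_le.trans (r2 l hl)).trans (Nat.mul_le_mul_right _ s1)
    have c4 := Finset.card_union_le (DP.biUnion (fun l => (ZT l).image
        (fun z => pr k a b (wt g z - 1) l z))) (DS.biUnion (fun l => (ZS l).image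
        (fun z => pr k a b (1 - wt g z) l z)))
    omega
  · intro x hx
    have hmx : ∀ (η : ℝ) (l : ℝ × ℝ) (z : List E), 0 ≤ (pr k a b η l z).1 ∧
        0 ≤ (pr k a b η l z).2 := fun η l z =>
      ⟨(mxl_nonneg ha z).trans (le_max_left _ _), (mxl_nonneg hb z).trans (le_max_left _ _)⟩
    rcases (mD x).1 hx with (⟨l₁, -, l₂, -, rfl⟩ | ⟨l, -, z, -, rfl⟩ | ⟨l, -, z, -, rfl⟩) |
      ⟨z, -, rfl⟩
    · exact ⟨(ha e).trans (le_max_left _ _), (hb e).trans (le_max_left _ _)⟩
    · exact hmx _ _ _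
    · exact hmx _ _ _
    · exact hmx _ _ _
  · -- the lower bound
    intro θ hθ y hy hdd hye
    obtain ⟨c, hcd⟩ : ∃ c : E → ℝ, c = fun f => a f + θ * b f := ⟨_, rfl⟩
    have hc : ∀ f, 0 ≤ c f := fun f => by
      rw [hcd]
      exact add_nonneg (ha f) (mul_nonneg hθ.le (hb f))
    obtain ⟨ρ, hρ⟩ : ∃ ρ : ℝ, ρ = ∑ f, c f * y f := ⟨_, rfl⟩
    have hρ' : ∑ f, (a f + θ * b f) * y f = ρ := by rw [hρ, hcd]
    have hρ0 : 0 ≤ ρ := by
      rw [hρ]
      exact Finset.sum_nonneg fun f _ => mul_nonneg (hc f) (hy f)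
    have hce : c e ≤ ρ := by
      rw [hρ]
      have := Finset.single_le_sum (f := fun f => c f * y f)
        (fun f _ => mul_nonneg (hc f) (hy f)) (Finset.mem_univ e)
      simpa [hye] using this
    have hae : a e ≤ ρ := by
      rw [hcd] at hce
      have := mul_nonneg hθ.le (hb e)
      simp only at hce
      linarith
    have hbe : θ * b e ≤ ρ := by
      rw [hcd] at hce
      have := ha e
      simp only at hce
      linarith
    rw [hρ']
    have hCl1 : 1 ≤ C / lam := by linarith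
    have hGρ : ∀ t : ℝ, t ≤ 30000 * (C / lam) → t * ρ ≤ G * ρ := fun t ht => by
      rw [hGC]
      exact mul_le_mul_of_nonneg_right ht hρ0
    obtain ⟨Tp, tp0, tp1, tp2⟩ := bestT tl hd g a b p ha hb DP p2 θ hθ (p4 θ hθ)
    obtain ⟨Tq, tq0, tq1, tq2⟩ := bestT tl hd g a b q ha hb DQ q2 θ hθ (q4 θ hθ)
    obtain ⟨Sp, sp0, sp1, sp2⟩ := bestS tl hd g a b p ha hb DS s2 θ hθ (s4 θ hθ)
    rw [← hcd] at tp1 tq1 sp1
    have hke : k e ≤ 2 * g e := by
      have := hC.ge (l := [e]) (by simp)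
      simpa [wt] using this
    have hlq := q4 θ hθ
    have hls := s4 θ hθ
    have e1 : ∀ f, a f + θ * b f = c f := fun f => by rw [hcd]
    simp only [e1] at hlq hls
    rcases hMIX E N tl hd g c y e p q Tp Tq Sp hg hc hy hdd hp hq hye tp0 tq0 sp0 tp1 tq1 sp1 with
      ⟨f1, f2, f3, f4⟩ | ⟨P, w1, w2, w3, w4, w5, w6, w7⟩
    · -- independent disposal and production
      rw [← hρ] at f3 f4
      obtain ⟨l₁, m1, m2⟩ := tq2 f1
      obtain ⟨l₂, m3, m4⟩ := sp2 f2
      refine ⟨pa k a b e (l₁, l₂), (mD _).2 (Or.inl (Or.inl ⟨l₁, m1, l₂, m3, rfl⟩)), ?_⟩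
      have h800 : 800 * ρ ≤ G * ρ := hGρ 800 (by linarith)
      refine phi_pa hθ (by linarith) (by linarith) ?_ (hk e) ?_
      · rw [m2]
        have := mul_le_mul_of_nonneg_right hke (show 0 ≤ 2 * Tq by linarith)
        linarith
      · rw [m4]
        linarith
    · rw [← hρ] at w5 w6 w7
      have hlen : (e :: P).length ≤ Fintype.card E + 1 := by
        rw [List.length_cons]
        omega
      have hW : Wk tl hd p (e :: P) p := Wk.cons hp hq w1
      by_cases hw : wt k (e :: P) = 1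
      · -- a closed walk with compensation
        have hz : e :: P ∈ ZZ := (mZZ _).2 ⟨hlen, ⟨P, rfl, w1⟩, hw⟩
        have hmc : mxl k c (e :: P) ≤ 400 * ρ := by
          have h1 := mxl_crs hC hc hlen
          have h2 := mxl_le_sml hg hc (e :: P)
          linarith
        have hma : mxl k a (e :: P) ≤ 400 * ρ := by
          refine (mxl_mono hk (fun f => ?_) _).trans hmc
          rw [← e1]
          have := mul_nonneg hθ.le (hb f)
          linarith
        have hmb : θ * mxl k b (e :: P) ≤ 400 * ρ := by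
          rw [← mxl_smul hθ.le]
          refine (mxl_mono hk (fun f => ?_) _).trans hmc
          rw [← e1]
          have := ha f
          linarith
        have h800 : 800 * ρ ≤ G * ρ := hGρ 800 (by linarith)
        rcases lt_trichotomy (wt g (e :: P)) 1 with h1 | h1 | h1
        · obtain ⟨f1, f2⟩ := w7 h1
          obtain ⟨l, m1, m2⟩ := sp2 f1
          have hX : max (pr k a b (1 - wt g (e :: P)) l (e :: P)).1
              (θ * (pr k a b (1 - wt g (e :: P)) l (e :: P)).2) ≤ 800 * ρ := by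
            refine phi_pr hθ (by linarith) (by linarith) (by linarith) ?_
            rw [m2]
            linarith
          rcases r3 l m1 _ (Finset.mem_filter.2 ⟨hz, h1⟩) with ⟨z', v1, v2, v3⟩ |
            ⟨p₁, p₂, v1, v2, v3, v4, v5, v6⟩
          · exact ⟨_, (mD _).2 (Or.inl (Or.inr (Or.inr ⟨l, m1, z', v1, rfl⟩))),
              ((phi_le hθ v2 v3).trans hX).trans h800⟩
          · exact hdomA θ _ _ _ p₁ p₂ hθ hz (le_max_left _ _) (le_max_left _ _) v1 v2 v3 v4 v5 v6
              (hX.trans h800)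
        · have hX : max (pr k a b 0 (0, 0) (e :: P)).1
              (θ * (pr k a b 0 (0, 0) (e :: P)).2) ≤ 800 * ρ := by
            refine phi_pr hθ le_rfl (by linarith) (by linarith) ?_
            rw [zero_mul]
            linarith
          rcases z3 _ (Finset.mem_filter.2 ⟨hz, h1⟩) with ⟨z', v1, v2, v3⟩ |
            ⟨p₁, p₂, v1, v2, v3, v4, v5, v6⟩
          · exact ⟨_, (mD _).2 (Or.inr ⟨z', v1, rfl⟩),
              ((phi_le hθ v2 v3).trans hX).trans h800⟩
          · exact hdomA θ _ _ _ p₁ p₂ hθ hz (le_max_left _ _) (le_max_left _ _) v1 v2 v3 v4 v5 v6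
              (hX.trans h800)
        · obtain ⟨f1, f2⟩ := w6 h1
          obtain ⟨l, m1, m2⟩ := tp2 f1
          have hX : max (pr k a b (wt g (e :: P) - 1) l (e :: P)).1
              (θ * (pr k a b (wt g (e :: P) - 1) l (e :: P)).2) ≤ 800 * ρ := by
            refine phi_pr hθ (by linarith) (by linarith) (by linarith) ?_
            rw [m2]
            linarith
          rcases t3 l m1 _ (Finset.mem_filter.2 ⟨hz, h1⟩) with ⟨z', v1, v2, v3⟩ |
            ⟨p₁, p₂, v1, v2, v3, v4, v5, v6⟩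
          · exact ⟨_, (mD _).2 (Or.inl (Or.inr (Or.inl ⟨l, m1, z', v1, rfl⟩))),
              ((phi_le hθ v2 v3).trans hX).trans h800⟩
          · exact hdomA θ _ _ _ p₁ p₂ hθ hz (le_max_left _ _) (le_max_left _ _) v1 v2 v3 v4 v5 v6
              (hX.trans h800)
      · -- the coarse gain is not `1`
        have hwe : wt g (e :: P) = g e * wt g P := wt_cons g e P
        have hsm : sml g c (e :: P) = c e + g e * sml g c P := sml_cons g c e P
        have hP0 : 0 ≤ g e * sml g c P := mul_nonneg (hg e).le (sml_nonneg hg hc P)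
        have hvz : ∀ u, dd tl hd g (vec g (e :: P)) u =
            if u = p then 1 - wt g (e :: P) else 0 := by
          intro u
          rw [dd_vec tl hd g hW]
          split_ifs <;> ring
        have fin : ∀ (l₁ l₂ : ℝ × ℝ), l₁ ∈ DQ → l₂ ∈ DS →
            g e * max l₁.1 (θ * l₁.2) ≤ 15000 * (C / lam) * ρ →
            max l₂.1 (θ * l₂.2) ≤ 30000 * (C / lam) * ρ →
            ∃ x ∈ D, max x.1 (θ * x.2) ≤ G * ρ := by
          intro l₁ l₂ m1 m2 m3 m4
          refine ⟨pa k a b e (l₁, l₂), (mD _).2 (Or.inl (Or.inl ⟨l₁, m1, l₂, m2, rfl⟩)), ?_⟩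
          have h1G : 1 * ρ ≤ G * ρ := hGρ 1 (by linarith)
          refine phi_pa hθ (by linarith) (by linarith) ?_ (hk e) ?_
          · have h5 : 0 ≤ max l₁.1 (θ * l₁.2) := (q2 l₁ m1).1.trans (le_max_left _ _)
            have h6 := mul_le_mul_of_nonneg_right hke h5
            rw [hGC]
            linarith
          · rw [hGC]
            exact m4
        rcases gap_cases hC hlen hw with ⟨h1, h2⟩ | ⟨h1, h2⟩
        · -- gain larger than `1`
          obtain ⟨f1, f2⟩ := w6 h1
          obtain ⟨l, m1, m2⟩ := tp2 f1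
          obtain ⟨F, v1, v2, v3, v4⟩ := p5 l m1
          have hml : max l.1 (θ * l.2) ≤ 1600 / lam * ρ := by
            have h3 : lam / 4 * max l.1 (θ * l.2) ≤ 400 * ρ := by
              have h4 : lam / 4 * max l.1 (θ * l.2) ≤
                  (wt g (e :: P) - 1) * max l.1 (θ * l.2) :=
                mul_le_mul_of_nonneg_right h2 ((p2 l m1).1.trans (le_max_left _ _))
              rw [m2] at h4 ⊢
              linarith
            have h5 : 1600 / lam * ρ = (400 * ρ) / (lam / 4) := by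
              field_simp
              ring
            rw [h5, le_div_iff₀ (by linarith)]
            linarith
          have hFc : ∑ f, c f * F f ≤ 3200 * (C / lam) * ρ := by
            have h3 : ∑ f, c f * F f = ∑ f, a f * F f + θ * ∑ f, b f * F f := by
              rw [Finset.mul_sum, ← Finset.sum_add_distrib]
              refine Finset.sum_congr rfl fun f _ => ?_
              rw [← e1]
              ring
            have h4 : l.1 ≤ max l.1 (θ * l.2) := le_max_left _ _
            have h5 : θ * l.2 ≤ max l.1 (θ * l.2) := le_max_right _ _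
            have h6 : θ * ∑ f, b f * F f ≤ C * (θ * l.2) := by
              have := mul_le_mul_of_nonneg_left v4 hθ.le
              linarith
            have hC00 : 0 ≤ C := by linarith
            have h7 : C * l.1 ≤ C * (1600 / lam * ρ) :=
              mul_le_mul_of_nonneg_left (h4.trans hml) hC00
            have h8 : C * (θ * l.2) ≤ C * (1600 / lam * ρ) :=
              mul_le_mul_of_nonneg_left (h5.trans hml) hC00
            have h9 : C * (1600 / lam * ρ) = 1600 * (C / lam) * ρ := by ring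
            rw [h3]
            linarith
          obtain ⟨y₁, hy₁⟩ : ∃ y₁ : E → ℝ, y₁ = g e • vec g P + wt g (e :: P) • F := ⟨_, rfl⟩
          have hy₁0 : ∀ f, 0 ≤ y₁ f := fun f => by
            rw [hy₁]
            exact add_nonneg (mul_nonneg (hg e).le (vec_nonneg hg P f))
              (mul_nonneg (wt_pos hg _).le (v1 f))
          have hy₁d : ∀ u, dd tl hd g y₁ u = if u = q then g e else 0 := fun u => by
            rw [hy₁, dd_add, dd_smul, dd_smul, v2, dd_vec tl hd g w1, hwe]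
            split_ifs <;> ring
          obtain ⟨l₁, m3, m4⟩ := hlq y₁ hy₁0 (fun u => by
            rw [hy₁d]
            split_ifs
            · exact (hg e).le
            · exact le_rfl) (by rw [hy₁d, if_pos rfl]; exact hg e)
          rw [hy₁d, if_pos rfl] at m4
          have hy₁c : ∑ f, c f * y₁ f ≤ 6600 * (C / lam) * ρ := by
            have h3 : ∑ f, c f * y₁ f = g e * sml g c P + wt g (e :: P) * ∑ f, c f * F f := by
              rw [← sum_vec, Finset.mul_sum, Finset.mul_sum, ← Finset.sum_add_distrib]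
              refine Finset.sum_congr rfl fun f _ => ?_
              rw [hy₁]
              simp only [Pi.add_apply, Pi.smul_apply, smul_eq_mul]
              ring
            have h4 : g e * sml g c P ≤ 200 * ρ := by
              have := hc e
              linarith
            have h5 : wt g (e :: P) * ∑ f, c f * F f ≤ 2 * (3200 * (C / lam) * ρ) := by
              have h6 : 0 ≤ 3200 * (C / lam) * ρ := by positivity
              have h7 : 0 ≤ ∑ f, c f * F f :=
                Finset.sum_nonneg fun f _ => mul_nonneg (hc f) (v1 f)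
              exact mul_le_mul w4 hFc h7 (by norm_num)
            have h8 : 200 * ρ ≤ 200 * (C / lam) * ρ := by
              have := mul_le_mul_of_nonneg_right hCl1 hρ0
              nlinarith
            rw [h3]
            linarith
          obtain ⟨l₂, m5, m6⟩ := hls (vec g (e :: P)) (vec_nonneg hg _) (fun u => by
            rw [hvz]
            split_ifs
            · linarith
            · exact le_rfl) (by rw [hvz, if_pos rfl]; linarith)
          rw [hvz, if_pos rfl, sum_vec] at m6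
          have h3 : lam / 4 * max l₂.1 (θ * l₂.2) ≤ 800 * ρ := by
            have h4 : lam / 4 * max l₂.1 (θ * l₂.2) ≤
                (wt g (e :: P) - 1) * max l₂.1 (θ * l₂.2) :=
              mul_le_mul_of_nonneg_right h2 ((s2 l₂ m5).1.trans (le_max_left _ _))
            linarith
          have h0 : 0 ≤ C / lam * ρ := by positivity
          refine fin l₁ l₂ m3 m5 (by linarith) ?_
          have h5 : max l₂.1 (θ * l₂.2) ≤ 3200 / lam * ρ := by
            have h5 : 3200 / lam * ρ = (800 * ρ) / (lam / 4) := by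
              field_simp
              ring
            rw [h5, le_div_iff₀ (by linarith)]
            linarith
          have h6 : 3200 / lam * ρ ≤ 30000 * (C / lam) * ρ := by
            refine mul_le_mul_of_nonneg_right ?_ hρ0
            rw [div_le_iff₀ hl0]
            have : 30000 * (C / lam) * lam = 30000 * C := by field_simp
            rw [this]
            linarith
          exact h5.trans h6
        · -- gain less than `1`
          obtain ⟨f1, f2⟩ := w7 h1
          obtain ⟨l₂, m5, m6⟩ := sp2 f1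
          have hγ := wt_pos hg (e :: P)
          have h1' : 0 < 1 - wt g (e :: P) := by linarith
          obtain ⟨t, ht⟩ : ∃ t : ℝ, t = wt g (e :: P) / (1 - wt g (e :: P)) := ⟨_, rfl⟩
          have ht1 : t * (1 - wt g (e :: P)) = wt g (e :: P) := by
            rw [ht]
            field_simp
          have ht0 : 0 ≤ t := by rw [ht]; positivity
          have ht2 : t ≤ 4 / lam := by
            rw [ht, div_le_div_iff₀ h1' hl0]
            nlinarith
          obtain ⟨y₁, hy₁⟩ : ∃ y₁ : E → ℝ, y₁ = g e • vec g P + t • vec g (e :: P) := ⟨_, rfl⟩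
          have hy₁0 : ∀ f, 0 ≤ y₁ f := fun f => by
            rw [hy₁]
            exact add_nonneg (mul_nonneg (hg e).le (vec_nonneg hg P f))
              (mul_nonneg ht0 (vec_nonneg hg _ f))
          have hy₁d : ∀ u, dd tl hd g y₁ u = if u = q then g e else 0 := fun u => by
            rw [hy₁, dd_add, dd_smul, dd_smul, hvz, dd_vec tl hd g w1]
            have e2 : t * (if u = p then 1 - wt g (e :: P) else 0) =
                if u = p then g e * wt g P else 0 := by
              split_ifs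
              · rw [ht1, hwe]
              · exact mul_zero t
            rw [e2]
            split_ifs <;> ring
          obtain ⟨l₁, m3, m4⟩ := hlq y₁ hy₁0 (fun u => by
            rw [hy₁d]
            split_ifs
            · exact (hg e).le
            · exact le_rfl) (by rw [hy₁d, if_pos rfl]; exact hg e)
          rw [hy₁d, if_pos rfl] at m4
          have hy₁c : ∑ f, c f * y₁ f ≤ 1000 / lam * ρ := by
            have h3 : ∑ f, c f * y₁ f = g e * sml g c P + t * sml g c (e :: P) := by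
              rw [← sum_vec, ← sum_vec, Finset.mul_sum, Finset.mul_sum,
                ← Finset.sum_add_distrib]
              refine Finset.sum_congr rfl fun f _ => ?_
              rw [hy₁]
              simp only [Pi.add_apply, Pi.smul_apply, smul_eq_mul]
              ring
            have h4 : g e * sml g c P ≤ 200 * ρ := by
              have := hc e
              linarith
            have h5 : t * sml g c (e :: P) ≤ 4 / lam * (200 * ρ) :=
              mul_le_mul ht2 w5 (sml_nonneg hg hc _) (by positivity)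
            have h6 : 200 * ρ ≤ 200 / lam * ρ := by
              refine mul_le_mul_of_nonneg_right ?_ hρ0
              rw [le_div_iff₀ hl0]
              linarith
            have h7 : 4 / lam * (200 * ρ) + 200 / lam * ρ = 1000 / lam * ρ := by ring
            rw [h3]
            linarith
          have h3 : lam / 4 * max l₂.1 (θ * l₂.2) ≤ 800 * ρ := by
            have h4 : lam / 4 * max l₂.1 (θ * l₂.2) ≤
                (1 - wt g (e :: P)) * max l₂.1 (θ * l₂.2) :=
              mul_le_mul_of_nonneg_right h2 ((s2 l₂ m5).1.trans (le_max_left _ _))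
            rw [m6] at h4 ⊢
            linarith
          have hlC : ∀ t : ℝ, t ≤ 30000 → t / lam * ρ ≤ t * (C / lam) * ρ ∨ t < 0 := by
            intro t _
            by_cases h0 : t < 0
            · exact Or.inr h0
            · left
              push Not at h0
              refine mul_le_mul_of_nonneg_right ?_ hρ0
              rw [div_eq_mul_one_div]
              refine mul_le_mul_of_nonneg_left ?_ h0
              exact div_le_div_of_nonneg_right (by linarith) hl0.le
          refine fin l₁ l₂ m3 m5 ?_ ?_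
          · have h8 : 1000 / lam * ρ ≤ 1000 * (C / lam) * ρ := by
              rcases hlC 1000 (by norm_num) with h | h
              · exact h
              · norm_num at h
            have h9 : 0 ≤ C / lam * ρ := by positivity
            linarith
          · have h5 : max l₂.1 (θ * l₂.2) ≤ 3200 / lam * ρ := by
              have h5 : 3200 / lam * ρ = (800 * ρ) / (lam / 4) := by
                field_simp
                ring
              rw [h5, le_div_iff₀ (by linarith)]
              linarith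
            have h8 : 3200 / lam * ρ ≤ 3200 * (C / lam) * ρ := by
              rcases hlC 3200 (by norm_num) with h | h
              · exact h
              · norm_num at h
            have h9 : 0 ≤ C / lam * ρ := by positivity
            linarith
  · -- the upper bound
    intro x hx
    have comp : ∀ (η : ℝ) (l : ℝ × ℝ) (z : List E) (F : E → ℝ), 0 ≤ η → 0 ≤ l.1 → 0 ≤ l.2 →
        z ∈ ZZ → (∀ f, 0 ≤ F f) →
        (∀ u, dd tl hd g F u = if u = p then - (1 - wt g z) else 0) →
        ∑ f, a f * F f ≤ 2 * C * (η * l.1) → ∑ f, b f * F f ≤ 2 * C * (η * l.2) →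
        ∃ y : E → ℝ, (∀ f, 0 ≤ y f) ∧ (∀ u, dd tl hd g y u = 0) ∧ 1 ≤ y e ∧
          ∑ f, a f * y f ≤ G * (pr k a b η l z).1 ∧
          ∑ f, b f * y f ≤ G * (pr k a b η l z).2 := by
      intro η l z F hη hl1 hl2 hz hF0 hFd hFa hFb
      obtain ⟨x1, x2, x3, x4, x5⟩ := hvec z hz
      have hC00 : 0 ≤ C := by linarith
      refine ⟨vec g z + F, fun f => add_nonneg (x1 f) (hF0 f), fun u => ?_, ?_, ?_, ?_⟩
      · rw [dd_add, x3, hFd]
        split_ifs <;> ring
      · have := hF0 e
        simp only [Pi.add_apply]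
        linarith
      · have h1 : ∑ f, a f * (vec g z + F) f = ∑ f, a f * vec g z f + ∑ f, a f * F f := by
          rw [← Finset.sum_add_distrib]
          exact Finset.sum_congr rfl fun f _ => by simp only [Pi.add_apply]; ring
        have h2 : mxl k a z ≤ (pr k a b η l z).1 := le_max_left _ _
        have h3 : η * l.1 ≤ (pr k a b η l z).1 := le_max_right _ _
        have h4 := mul_le_mul_of_nonneg_left h2 hC00
        have h5 := mul_le_mul_of_nonneg_left h3 hC00
        have h6 : 0 ≤ (pr k a b η l z).1 := (mxl_nonneg ha z).trans h2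
        have h7 := mul_le_mul_of_nonneg_right hG5 h6
        have h8 := mul_nonneg hC00 h6
        rw [h1]
        linarith
      · have h1 : ∑ f, b f * (vec g z + F) f = ∑ f, b f * vec g z f + ∑ f, b f * F f := by
          rw [← Finset.sum_add_distrib]
          exact Finset.sum_congr rfl fun f _ => by simp only [Pi.add_apply]; ring
        have h2 : mxl k b z ≤ (pr k a b η l z).2 := le_max_left _ _
        have h3 : η * l.2 ≤ (pr k a b η l z).2 := le_max_right _ _
        have h4 := mul_le_mul_of_nonneg_left h2 hC00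
        have h5 := mul_le_mul_of_nonneg_left h3 hC00
        have h6 : 0 ≤ (pr k a b η l z).2 := (mxl_nonneg hb z).trans h2
        have h7 := mul_le_mul_of_nonneg_right hG5 h6
        have h8 := mul_nonneg hC00 h6
        rw [h1]
        linarith
    have smul_cost : ∀ (c F : E → ℝ) (t : ℝ), ∑ f, c f * (t • F) f = t * ∑ f, c f * F f := by
      intro c F t
      rw [Finset.mul_sum]
      refine Finset.sum_congr rfl fun f _ => ?_
      simp only [Pi.smul_apply, smul_eq_mul]
      ring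
    rcases (mD x).1 hx with (⟨l₁, m1, l₂, m2, rfl⟩ | ⟨l, m1, z, m2, rfl⟩ | ⟨l, m1, z, m2, rfl⟩) |
      ⟨z, m2, rfl⟩
    · obtain ⟨F₁, v1, v2, v3, v4⟩ := q5 l₁ m1
      obtain ⟨F₂, v5, v6, v7, v8⟩ := s5 l₂ m2
      have hge : g e ≤ 2 * k e := by
        have := hC.le (l := [e]) (by simp)
        simpa [wt] using this
      have hC00 : 0 ≤ C := by linarith
      have cost : ∀ (c : E → ℝ) (t₁ t₂ T : ℝ), 0 ≤ c e → 0 ≤ t₁ → 0 ≤ t₂ →
          ∑ f, c f * F₁ f ≤ C * t₁ → ∑ f, c f * F₂ f ≤ 2 * C * t₂ → (∀ f, 0 ≤ c f) →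
          c e ≤ T → k e * t₁ ≤ T → t₂ ≤ T →
          ∑ f, c f * ((Pi.single e 1 : E → ℝ) + g e • F₁ + F₂) f ≤ G * T := by
        intro c t₁ t₂ T h1 h2 h3 h4 h5 h6 h7 h8 h9
        have h10 : ∑ f, c f * ((Pi.single e 1 : E → ℝ) + g e • F₁ + F₂) f =
            c e + g e * ∑ f, c f * F₁ f + ∑ f, c f * F₂ f := by
          rw [show c e = ∑ f, c f * (Pi.single e 1 : E → ℝ) f from (single_cost c e).symm,
            Finset.mul_sum, ← Finset.sum_add_distrib, ← Finset.sum_add_distrib]
          refine Finset.sum_congr rfl fun f _ => ?_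
          simp only [Pi.add_apply, Pi.smul_apply, smul_eq_mul]
          ring
        have h11 : g e * ∑ f, c f * F₁ f ≤ 2 * k e * (C * t₁) := by
          have h12 : 0 ≤ ∑ f, c f * F₁ f :=
            Finset.sum_nonneg fun f _ => mul_nonneg (h6 f) (v1 f)
          exact mul_le_mul hge h4 h12 (by linarith [hk e])
        have h12 : 2 * k e * (C * t₁) ≤ 2 * C * T := by
          have := mul_le_mul_of_nonneg_left h8 hC00
          linarith
        have h13 := mul_le_mul_of_nonneg_left h9 hC00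
        have hT : 0 ≤ T := h1.trans h7
        have h14 := mul_le_mul_of_nonneg_right hG5 hT
        have h15 : T ≤ C * T := by nlinarith
        rw [h10]
        linarith
      refine ⟨Pi.single e 1 + g e • F₁ + F₂, fun f => ?_, fun u => ?_, ?_, ?_, ?_⟩
      · refine add_nonneg (add_nonneg ?_ (mul_nonneg (hg e).le (v1 f))) (v5 f)
        by_cases h : f = e
        · subst h; simp
        · simp [Pi.single_eq_of_ne h]
      · rw [dd_add, dd_add, dd_smul, dd_single, v2, v6, hp, hq]
        simp only [Option.some.injEq, eq_comm (a := p), eq_comm (a := q)]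
        split_ifs <;> ring
      · simp only [Pi.add_apply, Pi.smul_apply, smul_eq_mul, Pi.single_eq_same]
        have := mul_nonneg (hg e).le (v1 e)
        have := v5 e
        linarith
      · exact cost a l₁.1 l₂.1 _ (ha e) (q2 l₁ m1).1 (s2 l₂ m2).1 v3 v7 ha (le_max_left _ _)
          ((le_max_left _ _).trans (le_max_right _ _)) ((le_max_right _ _).trans (le_max_right _ _))
      · exact cost b l₁.2 l₂.2 _ (hb e) (q2 l₁ m1).2 (s2 l₂ m2).2 v4 v8 hb (le_max_left _ _)
          ((le_max_left _ _).trans (le_max_right _ _)) ((le_max_right _ _).trans (le_max_right _ _))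
    · have hz := Finset.mem_filter.1 (t1 l m1 m2)
      obtain ⟨F, v1, v2, v3, v4⟩ := p5 l m1
      have hη : 0 ≤ wt g z - 1 := by linarith [hz.2]
      have hC00 : 0 ≤ C := by linarith
      refine comp _ l z ((wt g z - 1) • F) hη (p2 l m1).1 (p2 l m1).2 hz.1
        (fun f => mul_nonneg hη (v1 f)) (fun u => ?_) ?_ ?_
      · rw [dd_smul, v2]
        split_ifs <;> ring
      · rw [smul_cost]
        have h1 := mul_le_mul_of_nonneg_left v3 hη
        have h2 := mul_nonneg hC00 (mul_nonneg hη (p2 l m1).1)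
        linarith
      · rw [smul_cost]
        have h1 := mul_le_mul_of_nonneg_left v4 hη
        have h2 := mul_nonneg hC00 (mul_nonneg hη (p2 l m1).2)
        linarith
    · have hz := Finset.mem_filter.1 (r1 l m1 m2)
      obtain ⟨F, v1, v2, v3, v4⟩ := s5 l m1
      have hη : 0 ≤ 1 - wt g z := by linarith [hz.2]
      refine comp _ l z ((1 - wt g z) • F) hη (s2 l m1).1 (s2 l m1).2 hz.1
        (fun f => mul_nonneg hη (v1 f)) (fun u => ?_) ?_ ?_
      · rw [dd_smul, v2]
        split_ifs <;> ring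
      · rw [smul_cost]
        have h1 := mul_le_mul_of_nonneg_left v3 hη
        linarith
      · rw [smul_cost]
        have h1 := mul_le_mul_of_nonneg_left v4 hη
        linarith
    · have hz := Finset.mem_filter.1 (z1 m2)
      refine comp 0 (0, 0) z 0 le_rfl le_rfl le_rfl hz.1 (fun f => le_rfl) (fun u => ?_) ?_ ?_
      · rw [dd_zero, hz.2]
        split_ifs <;> ring
      · simp
      · simp

end Pool.Agent.L7h39.TV
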