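import Mathlib

set_option autoImplicit false

/-!
# Graphs with gains: walks, flows, costs (definitions)

`E` is the set of arcs, `N` the set of nodes. An arc `f` with tail `tl f` and head `hd f`
(`none`: the arc comes from outside, or goes outside) takes `y f` units at its tail and delivers
`g f * y f` units at its head.
-/

namespace Pool.Agent.L7h39.TV

variable {E N : Type}

/-- The product of the gains along a list of arcs. -/
def wt (k : E → ℝ) (l : List E) : ℝ := (l.map k).prod

/-- The largest cost along a list of arcs, for a unit at the beginning. -/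
noncomputable def mxl (k c : E → ℝ) : List E → ℝ
  | [] => 0
  | f :: l => max (c f) (k f * mxl k c l)

/-- The total cost along a list of arcs, for a unit at the beginning. -/
def sml (g c : E → ℝ) : List E → ℝ
  | [] => 0
  | f :: l => c f + g f * sml g c l

/-- Walks. They never use arcs without tail or without head. -/
inductive Wk (tl hd : E → Option N) : N → List E → N → Prop
  | nil (v : N) : Wk tl hd v [] v
  | cons {v u w : N} {f : E} {l : List E} : tl f = some v → hd f = some u → Wk tl hd u l w →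
      Wk tl hd v (f :: l) w

/-- The net outflow of `y` at the node `u`. -/
noncomputable def dd [Fintype E] [DecidableEq N] (tl hd : E → Option N) (g y : E → ℝ) (u : N) :
    ℝ :=
  ∑ f, ((if tl f = some u then y f else 0) - (if hd f = some u then g f * y f else 0))

/-- The flow of one unit along a list of arcs. -/
def vec [DecidableEq E] (g : E → ℝ) : List E → E → ℝ
  | [] => 0
  | f :: l => Pi.single f 1 + g f • vec g l

/-- The pairs of costs of the ways to dispose of a unit at `v`: a walk `P` followed by an arc `s`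
without head; or by a closed walk `z` with `wt k z < 1`; or by a closed walk `z` with `wt k z = 1`
and `wt g z < 1`. -/
def Fb (tl hd : E → Option N) (g k : E → ℝ) (L M0 : ℕ) (a b : E → ℝ) (v : N) (p : ℝ × ℝ) :
    Prop :=
  (∃ (P : List E) (w : N) (s : E), Wk tl hd v P w ∧ P.length ≤ L ∧ tl s = some w ∧
    hd s = none ∧
    p = (max (mxl k a P) (wt k P * a s), max (mxl k b P) (wt k P * b s))) ∨
  (∃ (P : List E) (w : N) (z : List E), Wk tl hd v P w ∧ P.length ≤ L ∧ Wk tl hd w z w ∧
    z.length ≤ L ∧ wt k z < 1 ∧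
    p = (max (mxl k a P) (wt k P * mxl k a z), max (mxl k b P) (wt k P * mxl k b z))) ∨
  (∃ (P : List E) (w : N) (z : List E), Wk tl hd v P w ∧ P.length ≤ L ∧ Wk tl hd w z w ∧
    z.length ≤ M0 ∧ wt k z = 1 ∧ wt g z < 1 ∧
    p = (max (mxl k a P) (wt k P * ((1 - wt g z)⁻¹ * mxl k a z)),
      max (mxl k b P) (wt k P * ((1 - wt g z)⁻¹ * mxl k b z))))

/-- The gains `k` are a coarse version of the gains `g`, for lists of length at most `M`. -/
def Crs (g k : E → ℝ) (lam : ℝ) (M : ℕ) : Prop :=
  (∀ f, 0 < g f) ∧ (∀ f, 0 < k f) ∧ 0 < lam ∧ lam ≤ 1 ∧ ∀ l : List E, l.length ≤ M →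
    wt g l ≤ 2 ^ (lam / 8) * wt k l ∧ wt k l ≤ 2 ^ (lam / 8) * wt g l ∧
    (wt k l = 1 ∨ 2 ^ lam ≤ wt k l ∨ wt k l ≤ 2 ^ (-lam))

/-- The number `T` is a lower bound for the cost of the disposal of a unit at `v`. -/
def LB [Fintype E] [DecidableEq N] (tl hd : E → Option N) (g c : E → ℝ) (v : N) (T : ℝ) : Prop :=
  ∀ y : E → ℝ, (∀ f, 0 ≤ y f) → (∀ u, 0 ≤ dd tl hd g y u) →
    dd tl hd g y v * T ≤ ∑ f, c f * y f

/-- The number `S` is a lower bound for the cost of the production of a unit at `v`. -/
def LBS [Fintype E] [DecidableEq N] (tl hd : E → Option N) (g c : E → ℝ) (v : N) (S : ℝ) : Prop :=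
  ∀ y : E → ℝ, (∀ f, 0 ≤ y f) → (∀ u, dd tl hd g y u ≤ 0) →
    -dd tl hd g y v * S ≤ ∑ f, c f * y f

/-- It is possible to dispose of something at `v`. -/
def Fe [Fintype E] [DecidableEq N] (tl hd : E → Option N) (g : E → ℝ) (v : N) : Prop :=
  ∃ y : E → ℝ, (∀ f, 0 ≤ y f) ∧ (∀ u, 0 ≤ dd tl hd g y u) ∧ 0 < dd tl hd g y v

/-- It is possible to produce something at `v`. -/
def Fes [Fintype E] [DecidableEq N] (tl hd : E → Option N) (g : E → ℝ) (v : N) : Prop :=
  ∃ y : E → ℝ, (∀ f, 0 ≤ y f) ∧ (∀ u, dd tl hd g y u ≤ 0) ∧ dd tl hd g y v < 0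

end Pool.Agent.L7h39.TV
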