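import Pool.Agent.L7h39.TV.Stm
import Pool.Agent.Y648.CX.T_MX
import Pool.Agent.Y648.CX.T_SEL
import Pool.Agent.Y648.CX.T_GLU

set_option autoImplicit false

/-!
# From few lines to the structure of all maxima
-/

namespace Pool.Agent.L7h39.TV

open Matrix Pool.Agent.Y648.CS.V

theorem PL.mono {a b : ℝ} {N N' : ℕ} {δ δ' : ℝ} {f : ℝ → ℝ} (h : PL a b N δ f) (hN : N ≤ N')
    (hδ : δ ≤ δ') : PL a b N' δ' f := by
  obtain ⟨Z, h1, h2⟩ := h
  refine ⟨Z, h1.trans hN, fun y₁ y₂ ha hy hb hz => ?_⟩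
  rcases h2 y₁ y₂ ha hy hb hz with h3 | h3
  · exact Or.inl fun y h4 h5 => (h3 y h4 h5).trans hδ
  · exact Or.inr fun y h4 h5 => (h3 y h4 h5).trans hδ

/-- If on all intervals on which the capacities are linear, the maximum of each coordinate is always
near one of few lines. -/
theorem pie_of_lines : ∃ q : Polynomial ℕ, ∀ (K r : ℕ) (V : Submodule ℝ (Fin K → ℝ))
    (s : Fin K → ℝ) (y₀ : ℝ), (∀ i, 0 ≤ s i) →
    (∀ (a b : ℝ) (e : Fin K), a ≤ b → Lin s a b → 0 < mx V s (Pi.single e 1) (2 ^ a) →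
      ∃ (k : ℕ) (c : Fin k → ℝ) (σ : Fin k → Bool), k ≤ r ∧ ∀ y, a ≤ y → y ≤ b →
        ∃ i, |lmx V s (Pi.single e 1) y - (c i + if σ i then y else 0)| ≤ r) →
    Pie (q.eval (K + r)) V s y₀ := by
  obtain ⟨q, hq⟩ := t_GLU t_MX
  refine ⟨q.comp (Polynomial.X + 20 * (Polynomial.X * Polynomial.X)), ?_⟩
  intro K r V s y₀ hs h
  have h1 := hq K (20 * (r * r)) V s y₀ hs (fun a b e hab hL hp => by
    obtain ⟨k, c, σ, hk, hc⟩ := h a b e hab hL hp
    have h2 := t_SEL a b r k (lmx V s (Pi.single e 1)) c σ (Nat.cast_nonneg _)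
      (fun y y' _ h4 _ => TPIE.lmx_lip t_MX V s _ hs a hp y y' h4) hc
    refine PL.mono h2 ?_ ?_
    · have : k * k ≤ r * r := Nat.mul_le_mul hk hk
      calc 2 * k * k = 2 * (k * k) := by ring
        _ ≤ 20 * (r * r) := by omega
    · push_cast
      have h6 : (k : ℝ) ≤ r := by exact_mod_cast hk
      have h7 : (0 : ℝ) ≤ r := Nat.cast_nonneg _
      nlinarith)
  refine Pie.mono' h1 ?_
  rw [Polynomial.eval_comp]
  refine poly_mono' q ?_
  simp only [Polynomial.eval_add, Polynomial.eval_mul, Polynomial.eval_X, Polynomial.eval_ofNat]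
  have h8 : r * r ≤ (K + r) * (K + r) := Nat.mul_le_mul (by omega) (by omega)
  omega

theorem t_PIT : S_BRI → S_PIT := by
  rintro ⟨Q, hQ⟩
  obtain ⟨q, hq⟩ := pie_of_lines
  refine ⟨q.comp (Polynomial.X + Q), ?_⟩
  intro K n A s y₀ hA hs
  have h1 := hq K (Q.eval K) (lker A) s y₀ hs (fun a b e hab hL hp => by
    obtain ⟨k, c, σ, hk, hc⟩ := hQ K n A s e hA hs
    refine ⟨k, c, σ, hk, fun y hy _ => hc y ?_⟩
    exact hp.trans_le ((t_MX K (lker A) s _ hs (2 ^ a) (by positivity)).2.2.2 (2 ^ y)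
      (Real.rpow_le_rpow_of_exponent_le (by norm_num) hy)).1)
  rwa [Polynomial.eval_comp, Polynomial.eval_add, Polynomial.eval_X]

end Pool.Agent.L7h39.TV
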