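import Pool.Agent.L7h39.TV.RunP
import Pool.Agent.L7h39.TV.Pit

set_option autoImplicit false

/-!
# The spaces of the two phases
-/

namespace Pool.Agent.L7h39.TV

open Matrix Pool.Agent.NPC Pool.Agent.H558R2 Pool.Agent.H622R3.SM Pool.Agent.W920.FC
open Pool.Agent.Y648.CS Pool.Agent.Y648.CS.V Pool.Agent.Y529.CS

/-- The first phase: differences of two vectors. -/
def V0 {m : ℕ} (L : Submodule ℝ (Fin m → ℝ)) : Submodule ℝ (Fin (m + m) → ℝ) where
  carrier := {x | (fun c => x (Fin.castAdd m c) - x (Fin.natAdd m c)) ∈ L}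
  add_mem' := by
    intro x y hx hy
    have h := L.add_mem hx hy
    have e : ((fun c => x (Fin.castAdd m c) - x (Fin.natAdd m c)) +
        fun c => y (Fin.castAdd m c) - y (Fin.natAdd m c)) =
        fun c => (x + y) (Fin.castAdd m c) - (x + y) (Fin.natAdd m c) := by
      funext c
      simp only [Pi.add_apply]
      ring
    rw [e] at h
    exact h
  zero_mem' := by
    have e : (fun c => (0 : Fin (m + m) → ℝ) (Fin.castAdd m c) -
        (0 : Fin (m + m) → ℝ) (Fin.natAdd m c)) = (0 : Fin m → ℝ) := by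
      funext c
      simp
    show (fun c => (0 : Fin (m + m) → ℝ) (Fin.castAdd m c) -
        (0 : Fin (m + m) → ℝ) (Fin.natAdd m c)) ∈ L
    rw [e]
    exact L.zero_mem
  smul_mem' := by
    intro t x hx
    have h := L.smul_mem t hx
    have e : (t • fun c => x (Fin.castAdd m c) - x (Fin.natAdd m c)) =
        fun c => (t • x) (Fin.castAdd m c) - (t • x) (Fin.natAdd m c) := by
      funext c
      simp only [Pi.smul_apply, smul_eq_mul]
      ring
    rw [e] at h
    exact h

/-- Extension by zero. -/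
def ext {K m : ℕ} (ψ : Fin K → Fin m) (x : Fin K → ℝ) : Fin m → ℝ :=
  fun c => ∑ i, if ψ i = c then x i else 0

/-- The second phase: vectors with support in the image of `ψ`. -/
def V1 {K m : ℕ} (ψ : Fin K → Fin m) (L : Submodule ℝ (Fin m → ℝ)) :
    Submodule ℝ (Fin K → ℝ) where
  carrier := {x | ext ψ x ∈ L}
  add_mem' := by
    intro x y hx hy
    have h := L.add_mem hx hy
    have e : ext ψ x + ext ψ y = ext ψ (x + y) := by
      funext c
      unfold ext
      rw [Pi.add_apply, ← Finset.sum_add_distrib]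
      refine Finset.sum_congr rfl fun i _ => ?_
      rw [Pi.add_apply]
      split_ifs <;> ring
    rw [e] at h
    exact h
  zero_mem' := by
    have e : ext ψ 0 = 0 := by
      funext c
      simp [ext]
    show ext ψ 0 ∈ L
    rw [e]
    exact L.zero_mem
  smul_mem' := by
    intro t x hx
    have h := L.smul_mem t hx
    have e : t • ext ψ x = ext ψ (t • x) := by
      funext c
      unfold ext
      rw [Pi.smul_apply, smul_eq_mul, Finset.mul_sum]
      refine Finset.sum_congr rfl fun i _ => ?_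
      rw [Pi.smul_apply, smul_eq_mul]
      split_ifs <;> ring
    rw [e] at h
    exact h

theorem mem_V0 {m : ℕ} {L : Submodule ℝ (Fin m → ℝ)} {x : Fin (m + m) → ℝ} :
    x ∈ V0 L ↔ (fun c => x (Fin.castAdd m c) - x (Fin.natAdd m c)) ∈ L := Iff.rfl

theorem mem_V1 {K m : ℕ} {ψ : Fin K → Fin m} {L : Submodule ℝ (Fin m → ℝ)} {x : Fin K → ℝ} :
    x ∈ V1 ψ L ↔ ext ψ x ∈ L := Iff.rfl

theorem mem_lk {m n : ℕ} (A : Matrix (Fin m) (Fin n) ℝ) (C : Fin m → ℝ) :
    C ∈ lker A ↔ ∀ i : Fin n, ∑ c : Fin m, A c i * C c = 0 := vecMul_iff A C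

theorem res0 {m n : ℕ} (A : Matrix (Fin m) (Fin n) ℝ) (b : Fin m → ℝ) :
    Res (Lsp m n 0 (start A b) (dr0 m)) (Xc m (dr0 m)) (fun i : Fin (m + m) => (i : ℕ))
      (V0 (lker A)) := by
  refine ⟨fun i j h => Fin.ext h, fun c => ?_, fun x => ?_⟩
  · rw [Xc0, Finset.mem_range]
    constructor
    · intro h
      exact ⟨⟨c, h⟩, rfl⟩
    · rintro ⟨i, rfl⟩
      exact i.2
  · rw [mem_V0, mem_lk]
    constructor
    · intro h
      obtain ⟨v, hv⟩ : ∃ v : ℕ → ℝ, v = fun c => if hc : c < m + m then x ⟨c, hc⟩ else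
          if c = m + m then ∑ c : Fin m, x (Fin.natAdd m c) else
            ∑ c : Fin m, (x (Fin.castAdd m c) + x (Fin.natAdd m c)) := ⟨_, rfl⟩
      have h1 : ∀ i : Fin (m + m), v i = x i := by
        intro i
        rw [hv]
        simp only [dif_pos i.2]
      have h2 : ∀ c : Fin m, v c = x (Fin.castAdd m c) := fun c => h1 (Fin.castAdd m c)
      have h3 : ∀ c : Fin m, v (m + c) = x (Fin.natAdd m c) := fun c => h1 (Fin.natAdd m c)
      refine ⟨v, ?_, fun i => (h1 i).symm⟩
      rw [mem_Lsp0]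
      refine ⟨fun i => ?_, ?_, ?_⟩
      · rw [← h i]
        exact Finset.sum_congr rfl fun c _ => by rw [h2, h3]
      · rw [Finset.sum_congr rfl fun c _ => h3 c, hv]
        simp
      · rw [Finset.sum_congr rfl fun c _ => by rw [h2, h3], hv]
        simp
    · rintro ⟨v, hv, hx⟩ i
      rw [mem_Lsp0] at hv
      rw [← hv.1 i]
      refine Finset.sum_congr rfl fun c _ => ?_
      rw [hx, hx]
      rfl

theorem res1 {m n : ℕ} (A : Matrix (Fin m) (Fin n) ℝ) (b : Fin m → ℝ) (B : List Bool) :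
    ∃ (K : ℕ) (ψ : Fin K → Fin m), K ≤ m ∧ Function.Injective ψ ∧
      Res (Lsp m n 1 (start A b) (dr1 m B)) (Xc m (dr1 m B)) (fun i => (ψ i : ℕ))
        (V1 ψ (lker A)) := by
  obtain ⟨X, hX⟩ : ∃ X, X = Finset.univ.filter fun c : Fin m => B.getD c false = true := ⟨_, rfl⟩
  obtain ⟨ψ, hψ⟩ : ∃ ψ : Fin X.card → Fin m, ψ = fun i => ((X.equivFin.symm i : X) : Fin m) :=
    ⟨_, rfl⟩
  have hinj : Function.Injective ψ := by
    rw [hψ]
    intro i j hij
    exact X.equivFin.symm.injective (Subtype.ext hij)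
  have hmem : ∀ c : Fin m, B.getD c false = true ↔ ∃ i, ψ i = c := by
    intro c
    have h1 : B.getD c false = true ↔ c ∈ X := by rw [hX]; simp
    rw [h1, hψ]
    constructor
    · intro hc
      exact ⟨X.equivFin ⟨c, hc⟩, by simp⟩
    · rintro ⟨i, rfl⟩
      exact (X.equivFin.symm i).2
  refine ⟨X.card, ψ, ?_, hinj, fun i j h => hinj (Fin.ext h), fun c => ?_, fun x => ?_⟩
  · exact (Finset.card_le_univ X).trans (by simp)
  · rw [mem_Xc1]
    constructor
    · rintro ⟨h1, h2⟩
      obtain ⟨i, hi⟩ := (hmem ⟨c, h1⟩).1 h2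
      refine ⟨i, ?_⟩
      show ((ψ i : Fin m) : ℕ) = c
      rw [hi]
    · rintro ⟨i, rfl⟩
      exact ⟨(ψ i).2, (hmem _).2 ⟨i, rfl⟩⟩
  · rw [mem_V1, mem_lk]
    have key : ∀ v : ℕ → ℝ, (∀ i, x i = v (ψ i)) → ∀ c : Fin m, rs B v c = ext ψ x c := by
      intro v hv c
      unfold rs ext
      split_ifs with h
      · obtain ⟨i, rfl⟩ := (hmem c).1 h
        rw [Finset.sum_eq_single i]
        · rw [if_pos rfl, hv]
        · intro j _ hj
          rw [if_neg fun h => hj (hinj h)]
        · intro h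
          exact absurd (Finset.mem_univ _) h
      · symm
        refine Finset.sum_eq_zero fun i _ => ?_
        rw [if_neg]
        rintro rfl
        exact h ((hmem _).2 ⟨i, rfl⟩)
    constructor
    · intro h
      obtain ⟨v, hv⟩ : ∃ v : ℕ → ℝ, v = fun c => if hc : c < m then ext ψ x ⟨c, hc⟩ else
          if c = m + m then - ∑ c : Fin m, b c * ext ψ x c else
            if c = m + m + 1 then ∑ c : Fin m, ext ψ x c else 0 := ⟨_, rfl⟩
      have h1 : ∀ i, x i = v (ψ i) := by
        intro i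
        rw [hv]
        simp only [dif_pos (ψ i).2]
        show x i = ext ψ x (ψ i)
        unfold ext
        rw [Finset.sum_eq_single i]
        · rw [if_pos rfl]
        · intro j _ hj
          rw [if_neg fun h => hj (hinj h)]
        · intro h
          exact absurd (Finset.mem_univ _) h
      have h2 := key v h1
      refine ⟨v, ?_, h1⟩
      rw [mem_Lsp1]
      refine ⟨fun i => ?_, ?_, ?_⟩
      · rw [← h i]
        exact Finset.sum_congr rfl fun c _ => by rw [h2]
      · rw [Finset.sum_congr rfl fun c _ => by rw [h2], hv]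
        simp
      · rw [Finset.sum_congr rfl fun c _ => h2 c, hv]
        have e1 : ¬ (m + m + 1 < m) := by omega
        have e2 : ¬ (m + m + 1 = m + m) := by omega
        simp only [dif_neg e1, if_neg e2, if_true]
    · rintro ⟨v, hv, hx⟩ i
      rw [mem_Lsp1] at hv
      rw [← hv.1 i]
      exact Finset.sum_congr rfl fun c _ => by rw [key v hx]

/-- The structure in both phases, in terms of the left kernel. -/
theorem pok2 {N m n : ℕ} (A : Matrix (Fin m) (Fin n) ℝ) (b : Fin m → ℝ)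
    (h0 : ∀ (s : Fin (m + m) → ℝ) (y₀ : ℝ), (∀ i, 0 ≤ s i) → Pie N (V0 (lker A)) s y₀)
    (h1 : ∀ (K : ℕ) (ψ : Fin K → Fin m), K ≤ m → Function.Injective ψ →
      ∀ (s : Fin K → ℝ) (y₀ : ℝ), (∀ i, 0 ≤ s i) → Pie N (V1 ψ (lker A)) s y₀) :
    POK2 N A b := by
  refine ⟨⟨m + m, _, V0 (lker A), res0 A b, h0⟩, fun B => ?_⟩
  obtain ⟨K, ψ, hK, hψ, hR⟩ := res1 A b B
  exact ⟨K, _, V1 ψ (lker A), hR, h1 K ψ hK hψ⟩

/-! ### Matrices with two entries in every row -/

theorem V0_two {m n : ℕ} {A : Matrix (Fin m) (Fin n) ℝ} (hA : Two A) :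
    ∃ A' : Matrix (Fin (m + m)) (Fin n) ℝ, Two A' ∧ lker A' = V0 (lker A) := by
  refine ⟨Fin.append (fun c => A c) (fun c i => - A c i), ?_, ?_⟩
  · intro i
    refine Fin.addCases (fun c => ?_) (fun c => ?_) i
    · have h := hA c
      rw [Fin.append_left]
      exact h
    · have h := hA c
      rw [Fin.append_right]
      simpa using h
  · ext x
    rw [mem_V0, mem_lk, mem_lk]
    refine forall_congr' fun i => ?_
    rw [Fin.sum_univ_add, ← Finset.sum_add_distrib]
    refine Eq.congr ?_ rfl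
    refine Finset.sum_congr rfl fun c _ => ?_
    rw [Fin.append_left, Fin.append_right]
    ring

theorem V1_two {K m n : ℕ} (ψ : Fin K → Fin m) {A : Matrix (Fin m) (Fin n) ℝ} (hA : Two A) :
    ∃ A' : Matrix (Fin K) (Fin n) ℝ, Two A' ∧ lker A' = V1 ψ (lker A) := by
  refine ⟨fun i => A (ψ i), fun i => hA (ψ i), ?_⟩
  ext x
  rw [mem_V1, mem_lk, mem_lk]
  refine forall_congr' fun i => ?_
  refine Eq.congr ?_ rfl
  unfold ext
  have : ∀ c, A c i * ∑ j, (if ψ j = c then x j else 0) = ∑ j, if ψ j = c then A c i * x j else 0 := by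
    intro c
    rw [Finset.mul_sum]
    refine Finset.sum_congr rfl fun j _ => ?_
    split_ifs <;> simp
  rw [Finset.sum_congr rfl fun c _ => this c, Finset.sum_comm]
  refine Finset.sum_congr rfl fun j _ => ?_
  rw [Finset.sum_ite_eq]
  simp

/-- The structure in both phases for the left kernels of matrices with two entries in every
row. -/
theorem pok_two : S_PIT → ∃ Q : Polynomial ℕ, ∀ (m n n' : ℕ) (A : Matrix (Fin m) (Fin n) ℝ)
    (A' : Matrix (Fin m) (Fin n') ℝ) (b : Fin m → ℝ), Two A' → lker A' = lker A →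
    POK2 (Q.eval m) A b := by
  rintro ⟨Q, hQ⟩
  refine ⟨Q.comp (2 * Polynomial.X), ?_⟩
  intro m n n' A A' b hA h
  have e : (Q.comp (2 * Polynomial.X)).eval m = Q.eval (m + m) := by
    rw [Polynomial.eval_comp]
    congr 1
    simp only [Polynomial.eval_mul, Polynomial.eval_X, Polynomial.eval_ofNat]
    omega
  rw [e]
  refine pok2 A b ?_ ?_
  · intro s y₀ hs
    obtain ⟨A₂, h1, h2⟩ := V0_two hA
    have h3 := hQ (m + m) n' A₂ s y₀ h1 hs
    rwa [h2, h] at h3
  · intro K ψ hK _ s y₀ hs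
    obtain ⟨A₂, h1, h2⟩ := V1_two ψ hA
    have h3 := hQ K n' A₂ s y₀ h1 hs
    rw [h2, h] at h3
    exact Pie.mono' h3 (poly_mono' Q (by omega))

end Pool.Agent.L7h39.TV
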