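import Pool.Agent.L7h39.TV.Stm2
import Pool.Agent.L7h39.TV.Phase

set_option autoImplicit false

/-!
# The spaces of the two phases for the dual class
-/

namespace Pool.Agent.L7h39.TV

open Matrix Pool.Agent.NPC Pool.Agent.H558R2 Pool.Agent.H622R3.SM Pool.Agent.W920.FC
open Pool.Agent.Y648.CS Pool.Agent.Y648.CS.V Pool.Agent.Y529.CS

theorem mem_ann {K : ℕ} {U : Submodule ℝ (Fin K → ℝ)} {g : Fin K → ℝ} :
    g ∈ ann U ↔ ∀ u ∈ U, g ⬝ᵥ u = 0 := Iff.rfl

theorem ext_dot {K m : ℕ} (ψ : Fin K → Fin m) (x : Fin K → ℝ) (u : Fin m → ℝ) :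
    ext ψ x ⬝ᵥ u = x ⬝ᵥ fun i => u (ψ i) := by
  unfold dotProduct ext
  have h1 : ∀ c, (∑ i, if ψ i = c then x i else 0) * u c =
      ∑ i, if ψ i = c then x i * u c else 0 := by
    intro c
    rw [Finset.sum_mul]
    refine Finset.sum_congr rfl fun i _ => ?_
    split_ifs <;> simp
  rw [Finset.sum_congr rfl fun c _ => h1 c, Finset.sum_comm]
  refine Finset.sum_congr rfl fun i _ => ?_
  rw [Finset.sum_ite_eq]
  simp

theorem V1_dual (hCON : S_CON) {K m n : ℕ} (ψ : Fin K → Fin m) (hψ : Function.Injective ψ)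
    {A : Matrix (Fin m) (Fin n) ℝ} (hA : Two A) :
    ∃ (n' : ℕ) (B : Matrix (Fin K) (Fin n') ℝ), Two B ∧
      ann (lker B) = V1 ψ (ann (lker A)) := by
  obtain ⟨n', B, hB, h⟩ := hCON K m n ψ A hψ hA
  refine ⟨n', B, hB, ?_⟩
  ext x
  rw [mem_V1, mem_ann, mem_ann]
  constructor
  · intro hx u hu
    rw [ext_dot]
    exact hx _ ((h _).2 ⟨u, hu, fun _ => rfl⟩)
  · intro hx w hw
    obtain ⟨u, hu, huw⟩ := (h w).1 hw
    have := hx u hu
    rw [ext_dot] at this
    rwa [show w = fun i => u (ψ i) from funext huw]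

/-- Two nonzero entries: the first one and the others. -/
theorem exists_first {n : ℕ} (v : Fin n → ℝ)
    (hv : (Finset.univ.filter fun j => v j ≠ 0).card ≤ 2) :
    ∃ h : Fin n → Bool, ((Finset.univ.filter fun j => h j = true ∧ v j ≠ 0).card ≤ 1) ∧
      (Finset.univ.filter fun j => h j = false ∧ v j ≠ 0).card ≤ 1 := by
  obtain ⟨S, hS⟩ : ∃ S : Finset (Fin n), S = Finset.univ.filter fun j => v j ≠ 0 := ⟨_, rfl⟩
  rw [← hS] at hv
  rcases S.eq_empty_or_nonempty with h0 | ⟨j₀, hj₀⟩
  · have h1 : ∀ j, v j = 0 := by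
      intro j
      by_contra h2
      have : j ∈ S := by rw [hS, Finset.mem_filter]; exact ⟨Finset.mem_univ _, h2⟩
      rw [h0] at this
      exact absurd this (Finset.notMem_empty _)
    refine ⟨fun _ => true, ?_, ?_⟩
    · rw [Finset.filter_false_of_mem fun j _ h2 => h2.2 (h1 j)]
      simp
    · rw [Finset.filter_false_of_mem fun j _ h2 => h2.2 (h1 j)]
      simp
  · refine ⟨fun j => decide (j = j₀), ?_, ?_⟩
    · refine (Finset.card_le_card (t := {j₀}) ?_).trans (by simp)
      intro j hj
      rw [Finset.mem_filter] at hj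
      rw [Finset.mem_singleton]
      exact of_decide_eq_true hj.2.1
    · refine (Finset.card_le_card (t := S.erase j₀) ?_).trans ?_
      · intro j hj
        rw [Finset.mem_filter] at hj
        rw [Finset.mem_erase, hS, Finset.mem_filter]
        exact ⟨of_decide_eq_false hj.2.1, Finset.mem_univ _, hj.2.2⟩
      · rw [Finset.card_erase_of_mem hj₀]
        omega

theorem card_le_two {n m : ℕ} (w : Fin (n + m) → ℝ)
    (h1 : (Finset.univ.filter fun j : Fin n => w (Fin.castAdd m j) ≠ 0).card ≤ 1)
    (h2 : (Finset.univ.filter fun j : Fin m => w (Fin.natAdd n j) ≠ 0).card ≤ 1) :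
    (Finset.univ.filter fun j => w j ≠ 0).card ≤ 2 := by
  classical
  have h : (Finset.univ.filter fun j => w j ≠ 0) ⊆
      ((Finset.univ.filter fun j : Fin n => w (Fin.castAdd m j) ≠ 0).image (Fin.castAdd m)) ∪
      ((Finset.univ.filter fun j : Fin m => w (Fin.natAdd n j) ≠ 0).image (Fin.natAdd n)) := by
    intro j hj
    rw [Finset.mem_filter] at hj
    rw [Finset.mem_union, Finset.mem_image, Finset.mem_image]
    obtain ⟨-, hj⟩ := hj
    induction j using Fin.addCases with
    | left i => exact Or.inl ⟨i, by simpa using hj, rfl⟩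
    | right i => exact Or.inr ⟨i, by simpa using hj, rfl⟩
  refine (Finset.card_le_card h).trans ((Finset.card_union_le _ _).trans ?_)
  have := Finset.card_image_le (s := Finset.univ.filter fun j : Fin n =>
    w (Fin.castAdd m j) ≠ 0) (f := Fin.castAdd m)
  have := Finset.card_image_le (s := Finset.univ.filter fun j : Fin m =>
    w (Fin.natAdd n j) ≠ 0) (f := Fin.natAdd n)
  omega

/-- The left kernel, with the negatives. -/
theorem two_double {m n : ℕ} {A : Matrix (Fin m) (Fin n) ℝ} (hA : Two A) :
    ∃ (n' : ℕ) (B : Matrix (Fin (m + m)) (Fin n') ℝ), Two B ∧ ∀ w : Fin (m + m) → ℝ,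
      w ∈ lker B ↔ (∀ c : Fin m, w (Fin.castAdd m c) + w (Fin.natAdd m c) = 0) ∧
        (fun c => w (Fin.castAdd m c)) ∈ lker A := by
  classical
  choose h h1 h2 using fun c => exists_first (A c) (hA c)
  obtain ⟨B, hB⟩ : ∃ B : Matrix (Fin (m + m)) (Fin (n + m)) ℝ, B =
      Fin.append (fun c => Fin.append (fun j => if h c j then A c j else 0)
        (fun c' => if c' = c then 1 else 0))
      (fun c => Fin.append (fun j => if h c j then 0 else - A c j)
        (fun c' => if c' = c then 1 else 0)) := ⟨_, rfl⟩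
  have hmem : ∀ w : Fin (m + m) → ℝ, w ∈ lker B ↔
      (∀ c : Fin m, w (Fin.castAdd m c) + w (Fin.natAdd m c) = 0) ∧
      (fun c => w (Fin.castAdd m c)) ∈ lker A := by
    intro w
    rw [mem_lk, mem_lk]
    have e1 : ∀ j : Fin n, ∑ c : Fin (m + m), B c (Fin.castAdd m j) * w c =
        ∑ c : Fin m, ((if h c j then A c j else 0) * w (Fin.castAdd m c) +
          (if h c j then 0 else - A c j) * w (Fin.natAdd m c)) := by
      intro j
      rw [Fin.sum_univ_add, ← Finset.sum_add_distrib]
      refine Finset.sum_congr rfl fun c _ => ?_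
      rw [hB, Fin.append_left, Fin.append_right, Fin.append_left, Fin.append_left]
    have e2 : ∀ c' : Fin m, ∑ c : Fin (m + m), B c (Fin.natAdd n c') * w c =
        w (Fin.castAdd m c') + w (Fin.natAdd m c') := by
      intro c'
      rw [Fin.sum_univ_add]
      have e3 : ∀ c, B (Fin.castAdd m c) (Fin.natAdd n c') * w (Fin.castAdd m c) =
          if c' = c then w (Fin.castAdd m c) else 0 := by
        intro c
        rw [hB, Fin.append_left, Fin.append_right]
        split_ifs <;> ring
      have e4 : ∀ c, B (Fin.natAdd m c) (Fin.natAdd n c') * w (Fin.natAdd m c) =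
          if c' = c then w (Fin.natAdd m c) else 0 := by
        intro c
        rw [hB, Fin.append_right, Fin.append_right]
        split_ifs <;> ring
      rw [Finset.sum_congr rfl fun c _ => e3 c, Finset.sum_congr rfl fun c _ => e4 c,
        Finset.sum_ite_eq, Finset.sum_ite_eq]
      simp
    have e5 : (∀ c : Fin m, w (Fin.castAdd m c) + w (Fin.natAdd m c) = 0) → ∀ j : Fin n,
        ∑ c : Fin (m + m), B c (Fin.castAdd m j) * w c =
          ∑ c : Fin m, A c j * w (Fin.castAdd m c) := by
      intro h3 j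
      rw [e1]
      refine Finset.sum_congr rfl fun c _ => ?_
      have h4 : w (Fin.natAdd m c) = - w (Fin.castAdd m c) := by linarith [h3 c]
      rw [h4]
      split_ifs <;> ring
    constructor
    · intro hw
      have h3 : ∀ c : Fin m, w (Fin.castAdd m c) + w (Fin.natAdd m c) = 0 := fun c => by
        rw [← e2]
        exact hw _
      exact ⟨h3, fun j => by rw [← e5 h3]; exact hw _⟩
    · rintro ⟨h3, h4⟩ i
      refine Fin.addCases (fun j => ?_) (fun c => ?_) i
      · rw [e5 h3]
        exact h4 j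
      · rw [e2]
        exact h3 c
  refine ⟨n + m, B, ?_, hmem⟩
  · have hone : ∀ c : Fin m, (Finset.univ.filter fun j : Fin m =>
        (if j = c then (1 : ℝ) else 0) ≠ 0).card ≤ 1 := by
      intro c
      refine (Finset.card_le_card (t := {c}) ?_).trans (by simp)
      intro j hj
      rw [Finset.mem_filter] at hj
      rw [Finset.mem_singleton]
      by_contra h3
      rw [if_neg h3] at hj
      exact hj.2 rfl
    intro i
    refine Fin.addCases (fun c => ?_) (fun c => ?_) i
    · refine card_le_two _ ?_ ?_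
      · refine (Finset.card_le_card ?_).trans (h1 c)
        intro j hj
        rw [Finset.mem_filter, hB, Fin.append_left, Fin.append_left] at hj
        rw [Finset.mem_filter]
        refine ⟨Finset.mem_univ _, ?_⟩
        by_cases h3 : h c j
        · rw [if_pos h3] at hj
          exact ⟨h3, hj.2⟩
        · rw [if_neg h3] at hj
          exact absurd rfl hj.2
      · refine (Finset.card_le_card ?_).trans (hone c)
        intro j hj
        rw [Finset.mem_filter, hB, Fin.append_left, Fin.append_right] at hj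
        rw [Finset.mem_filter]
        exact hj
    · refine card_le_two _ ?_ ?_
      · refine (Finset.card_le_card ?_).trans (h2 c)
        intro j hj
        rw [Finset.mem_filter, hB, Fin.append_right, Fin.append_left] at hj
        rw [Finset.mem_filter]
        refine ⟨Finset.mem_univ _, ?_⟩
        by_cases h3 : h c j
        · rw [if_pos h3] at hj
          exact absurd rfl hj.2
        · rw [if_neg h3] at hj
          exact ⟨by simpa using h3, fun h4 => hj.2 (by rw [h4, neg_zero])⟩
      · refine (Finset.card_le_card ?_).trans (hone c)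
        intro j hj
        rw [Finset.mem_filter, hB, Fin.append_right, Fin.append_right] at hj
        rw [Finset.mem_filter]
        exact hj

theorem V0_dual {m n : ℕ} {A : Matrix (Fin m) (Fin n) ℝ} (hA : Two A) :
    ∃ (n' : ℕ) (B : Matrix (Fin (m + m)) (Fin n') ℝ), Two B ∧
      ann (lker B) = V0 (ann (lker A)) := by
  obtain ⟨n', B, hB, hmem⟩ := two_double hA
  refine ⟨n', B, hB, ?_⟩
  ext x
  rw [mem_V0, mem_ann, mem_ann]
  have key : ∀ u : Fin m → ℝ, (fun c => x (Fin.castAdd m c) - x (Fin.natAdd m c)) ⬝ᵥ u =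
      x ⬝ᵥ Fin.append u (fun c => - u c) := by
    intro u
    unfold dotProduct
    rw [Fin.sum_univ_add, ← Finset.sum_add_distrib]
    refine Finset.sum_congr rfl fun c _ => ?_
    rw [Fin.append_left, Fin.append_right]
    ring
  constructor
  · intro hx u hu
    rw [key]
    refine hx _ ((hmem _).2 ⟨fun c => ?_, ?_⟩)
    · rw [Fin.append_left, Fin.append_right]
      ring
    · have e : (fun c => Fin.append u (fun c => - u c) (Fin.castAdd m c)) = u :=
        funext fun c => by rw [Fin.append_left]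
      rw [e]
      exact hu
  · intro hx w hw
    obtain ⟨h3, h4⟩ := (hmem w).1 hw
    have h5 := hx _ h4
    rw [key] at h5
    have e : Fin.append (fun c => w (Fin.castAdd m c)) (fun c => - w (Fin.castAdd m c)) = w := by
      funext i
      refine Fin.addCases (fun c => ?_) (fun c => ?_) i
      · rw [Fin.append_left]
      · rw [Fin.append_right]
        linarith [h3 c]
    rwa [e] at h5

/-- The structure in both phases for the dual class. -/
theorem pok_dual (hCON : S_CON) (hBRD : S_BRD) : ∃ Q : Polynomial ℕ, ∀ (m n n' : ℕ)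
    (A : Matrix (Fin m) (Fin n) ℝ) (A' : Matrix (Fin m) (Fin n') ℝ) (b : Fin m → ℝ), Two A' →
    lker A = ann (lker A') → POK2 (Q.eval m) A b := by
  obtain ⟨Q, hQ⟩ := hBRD
  obtain ⟨q, hq⟩ := pie_of_lines
  obtain ⟨R, hR⟩ : ∃ R : Polynomial ℕ, R = q.comp (Polynomial.X + Q) := ⟨_, rfl⟩
  have hP : ∀ (K n : ℕ) (B : Matrix (Fin K) (Fin n) ℝ) (s : Fin K → ℝ) (y₀ : ℝ), Two B →
      (∀ i, 0 ≤ s i) → Pie (R.eval K) (ann (lker B)) s y₀ := by
    intro K n B s y₀ hB hs
    have h1 := hq K (Q.eval K) (ann (lker B)) s y₀ hs (fun a b e hab hL hp =>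
      hQ K n B s e a b hB hs hab hL hp)
    rwa [hR, Polynomial.eval_comp, Polynomial.eval_add, Polynomial.eval_X]
  refine ⟨R.comp (2 * Polynomial.X), ?_⟩
  intro m n n' A A' b hA h
  have e : (R.comp (2 * Polynomial.X)).eval m = R.eval (m + m) := by
    rw [Polynomial.eval_comp]
    congr 1
    simp only [Polynomial.eval_mul, Polynomial.eval_X, Polynomial.eval_ofNat]
    omega
  rw [e]
  refine pok2 A b ?_ ?_
  · intro s y₀ hs
    obtain ⟨n₂, B, h1, h2⟩ := V0_dual hA
    have h3 := hP (m + m) n₂ B s y₀ h1 hs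
    rwa [h2, ← h] at h3
  · intro K ψ hK hψ s y₀ hs
    obtain ⟨n₂, B, h1, h2⟩ := V1_dual hCON ψ hψ hA
    have h3 := hP K n₂ B s y₀ h1 hs
    rw [h2, ← h] at h3
    exact Pie.mono' h3 (poly_mono' R (by omega))

end Pool.Agent.L7h39.TV
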