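import Pool.Agent.L7h39.TV.Dual

set_option autoImplicit false

/-!
# The explicit form of the dual class: generalized flows with bounds
-/

namespace Pool.Agent.L7h39.TV

open Matrix Pool.Agent.Y648.CS.V

theorem mem_lker' {m n : ℕ} (A : Matrix (Fin m) (Fin n) ℝ) (z : Fin m → ℝ) :
    z ∈ lker A ↔ A.vecMul z = 0 := Iff.rfl

/-- All constraints: lower and upper bounds for `D x` and for `x`. -/
def bothSides {k n : ℕ} (D : Matrix (Fin k) (Fin n) ℝ) :
    Matrix (Fin (k + n + (k + n))) (Fin n) ℝ :=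
  Fin.append (Fin.append D (1 : Matrix (Fin n) (Fin n) ℝ))
    (-(Fin.append D (1 : Matrix (Fin n) (Fin n) ℝ) : Matrix (Fin (k + n)) (Fin n) ℝ))

theorem flow_one {k n : ℕ} (D : Matrix (Fin k) (Fin n) ℝ)
    (hD : ∀ j, (Finset.univ.filter fun i => D i j ≠ 0).card ≤ 2) :
    ∃ B : Matrix (Fin (k + n)) (Fin k) ℝ, Two B ∧ ∀ z : Fin (k + n) → ℝ,
      z ∈ lker B ↔ ∃ x : Fin n → ℝ,
        z = (Fin.append D (1 : Matrix (Fin n) (Fin n) ℝ) : Matrix (Fin (k + n)) (Fin n) ℝ) *ᵥ x := by
  obtain ⟨B, hB⟩ : ∃ B : Matrix (Fin (k + n)) (Fin k) ℝ, B =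
      Fin.append (-(1 : Matrix (Fin k) (Fin k) ℝ)) D.transpose := ⟨_, rfl⟩
  refine ⟨B, ?_, ?_⟩
  · intro i
    refine Fin.addCases (fun c => ?_) (fun c => ?_) i
    · refine (Finset.card_le_card (t := {c}) ?_).trans (by simp)
      intro j hj
      rw [Finset.mem_filter, hB, Fin.append_left] at hj
      rw [Finset.mem_singleton]
      by_contra h3
      refine hj.2 ?_
      rw [Matrix.neg_apply, Matrix.one_apply_ne fun h => h3 h.symm, neg_zero]
    · refine (Finset.card_le_card ?_).trans (hD c)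
      intro j hj
      rw [Finset.mem_filter, hB, Fin.append_right] at hj
      rw [Finset.mem_filter]
      exact ⟨Finset.mem_univ _, hj.2⟩
  · intro z
    have e1 : ∀ x : Fin n → ℝ, ∀ i : Fin k,
        ((Fin.append D (1 : Matrix (Fin n) (Fin n) ℝ) : Matrix (Fin (k + n)) (Fin n) ℝ) *ᵥ x)
          (Fin.castAdd n i) = (D *ᵥ x) i := by
      intro x i
      show (Fin.append D (1 : Matrix (Fin n) (Fin n) ℝ) (Fin.castAdd n i)) ⬝ᵥ x = D i ⬝ᵥ x
      rw [Fin.append_left]
    have e2 : ∀ x : Fin n → ℝ, ∀ j : Fin n,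
        ((Fin.append D (1 : Matrix (Fin n) (Fin n) ℝ) : Matrix (Fin (k + n)) (Fin n) ℝ) *ᵥ x)
          (Fin.natAdd k j) = x j := by
      intro x j
      show (Fin.append D (1 : Matrix (Fin n) (Fin n) ℝ) (Fin.natAdd k j)) ⬝ᵥ x = x j
      rw [Fin.append_right]
      have h := congrFun (Matrix.one_mulVec x) j
      exact h
    have e3 : ∀ i : Fin k, ∑ c : Fin (k + n), B c i * z c =
        - z (Fin.castAdd n i) + (D *ᵥ fun j => z (Fin.natAdd k j)) i := by
      intro i
      rw [Fin.sum_univ_add]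
      congr 1
      · have h1 : ∀ c : Fin k, B (Fin.castAdd n c) i * z (Fin.castAdd n c) =
            if i = c then - z (Fin.castAdd n c) else 0 := by
          intro c
          rw [hB, Fin.append_left, Matrix.neg_apply, Matrix.one_apply]
          by_cases h : i = c
          · rw [if_pos h, if_pos h.symm]
            ring
          · rw [if_neg h, if_neg fun h' => h h'.symm]
            ring
        rw [Finset.sum_congr rfl fun c _ => h1 c, Finset.sum_ite_eq]
        simp
      · show _ = ∑ j, D i j * z (Fin.natAdd k j)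
        refine Finset.sum_congr rfl fun c _ => ?_
        rw [hB, Fin.append_right]
        rfl
    rw [mem_lk]
    constructor
    · intro h
      refine ⟨fun j => z (Fin.natAdd k j), ?_⟩
      funext c
      refine Fin.addCases (fun i => ?_) (fun j => ?_) c
      · rw [e1]
        have := h i
        rw [e3] at this
        linarith
      · rw [e2]
    · rintro ⟨x, hx⟩ i
      rw [e3]
      have h1 : (fun j => z (Fin.natAdd k j)) = x := by
        funext j
        rw [hx, e2]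
      rw [h1, hx, e1]
      ring

/-- Every choice of rows from `bothSides D` is in the dual class. -/
theorem flow_dual (hCON : S_CON) {k m n : ℕ} (D : Matrix (Fin k) (Fin n) ℝ)
    (ρ : Fin m → Fin (k + n + (k + n)))
    (hD : ∀ j, (Finset.univ.filter fun i => D i j ≠ 0).card ≤ 2) (hρ : Function.Injective ρ) :
    ∃ (n' : ℕ) (B : Matrix (Fin m) (Fin n') ℝ), Two B ∧ ∀ z : Fin m → ℝ,
      (∃ x : Fin n → ℝ, z = (Matrix.of fun i => bothSides D (ρ i)) *ᵥ x) ↔ B.vecMul z = 0 := by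
  obtain ⟨B₁, h1, h2⟩ := flow_one D hD
  obtain ⟨n₂, B₂, h3, h4⟩ := two_double h1
  obtain ⟨n₃, B₃, h5, h6⟩ := hCON m _ _ ρ B₂ hρ h3
  refine ⟨n₃, B₃, h5, fun z => ?_⟩
  rw [← mem_lker', h6]
  have key : ∀ x : Fin n → ℝ, ∀ w : Fin (k + n + (k + n)) → ℝ,
      ((∀ c : Fin (k + n), w (Fin.castAdd (k + n) c) + w (Fin.natAdd (k + n) c) = 0) ∧
        (fun c => w (Fin.castAdd (k + n) c)) = (Fin.append D (1 : Matrix (Fin n) (Fin n) ℝ) :
          Matrix (Fin (k + n)) (Fin n) ℝ) *ᵥ x) ↔ ∀ c, w c = bothSides D c ⬝ᵥ x := by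
    intro x w
    have e1 : ∀ c : Fin (k + n), bothSides D (Fin.castAdd (k + n) c) ⬝ᵥ x =
        ((Fin.append D (1 : Matrix (Fin n) (Fin n) ℝ) :
          Matrix (Fin (k + n)) (Fin n) ℝ) *ᵥ x) c := by
      intro c
      unfold bothSides
      rw [Fin.append_left]
      rfl
    have e2 : ∀ c : Fin (k + n), bothSides D (Fin.natAdd (k + n) c) ⬝ᵥ x =
        - ((Fin.append D (1 : Matrix (Fin n) (Fin n) ℝ) :
          Matrix (Fin (k + n)) (Fin n) ℝ) *ᵥ x) c := by
      intro c
      unfold bothSides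
      rw [Fin.append_right]
      exact neg_dotProduct _ _
    constructor
    · rintro ⟨h7, h8⟩ c
      refine Fin.addCases (fun c => ?_) (fun c => ?_) c
      · rw [e1]
        exact congrFun h8 c
      · rw [e2, ← congrFun h8 c]
        linarith [h7 c]
    · intro h7
      refine ⟨fun c => ?_, ?_⟩
      · rw [h7, h7, e1, e2]
        ring
      · funext c
        rw [h7, e1]
  constructor
  · rintro ⟨x, hx⟩
    refine ⟨fun c => bothSides D c ⬝ᵥ x, ?_, fun i => ?_⟩
    · rw [h4]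
      obtain ⟨h7, h8⟩ := (key x _).2 fun c => rfl
      exact ⟨h7, (h2 _).2 ⟨x, h8⟩⟩
    · rw [hx]
      rfl
  · rintro ⟨u, hu, hz⟩
    obtain ⟨h7, h8⟩ := (h4 u).1 hu
    obtain ⟨x, hx⟩ := (h2 _).1 h8
    refine ⟨x, ?_⟩
    funext i
    rw [hz]
    exact (key x u).1 ⟨h7, hx⟩ (ρ i)

end Pool.Agent.L7h39.TV
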