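import Pool.Agent.L7h39.TV.Stm
import Pool.Agent.L7h39.TV.Basic

set_option autoImplicit false

/-!
# Rounding; the reversed graph; best lower bounds
-/

namespace Pool.Agent.L7h39.TV

variable {E N : Type}

theorem two_rpow_le {lam : ℝ} (h : lam ≤ 1) : (2 : ℝ) ^ (lam / 8) ≤ 2 := by
  have := Real.rpow_le_rpow_of_exponent_le (x := 2) (by norm_num)
    (show lam / 8 ≤ 1 by linarith)
  rwa [Real.rpow_one] at this

theorem Crs.le {g k : E → ℝ} {lam : ℝ} {M : ℕ} (h : Crs g k lam M) {l : List E}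
    (hl : l.length ≤ M) : wt g l ≤ 2 * wt k l := by
  have h1 := (h.2.2.2.2 l hl).1
  have h2 := wt_pos h.2.1 l
  nlinarith [two_rpow_le h.2.2.2.1]

theorem Crs.ge {g k : E → ℝ} {lam : ℝ} {M : ℕ} (h : Crs g k lam M) {l : List E}
    (hl : l.length ≤ M) : wt k l ≤ 2 * wt g l := by
  have h1 := (h.2.2.2.2 l hl).2.1
  have h2 := wt_pos h.1 l
  nlinarith [two_rpow_le h.2.2.2.1]

theorem Crs.inv {g k : E → ℝ} {lam : ℝ} {M : ℕ} (h : Crs g k lam M) :
    Crs (fun f => (g f)⁻¹) (fun f => (k f)⁻¹) lam M := by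
  obtain ⟨h1, h2, h3, h4, h5⟩ := h
  refine ⟨fun f => inv_pos.2 (h1 f), fun f => inv_pos.2 (h2 f), h3, h4, fun l hl => ?_⟩
  obtain ⟨a1, a2, a3⟩ := h5 l hl
  have p1 := wt_pos h1 l
  have p2 := wt_pos h2 l
  have p3 : (0 : ℝ) < 2 ^ (lam / 8) := by positivity
  rw [wt_inv, wt_inv]
  refine ⟨?_, ?_, ?_⟩
  · rw [inv_eq_one_div, inv_eq_one_div, div_le_iff₀ p1, mul_comm, ← mul_assoc, mul_one_div,
      le_div_iff₀ p2]
    linarith
  · rw [inv_eq_one_div, inv_eq_one_div, div_le_iff₀ p2, mul_comm, ← mul_assoc, mul_one_div,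
      le_div_iff₀ p1]
    linarith
  · rcases a3 with a3 | a3 | a3
    · left
      rw [a3, inv_one]
    · right; right
      rw [Real.rpow_neg (by norm_num)]
      exact inv_anti₀ (by positivity) a3
    · right; left
      have h6 := inv_anti₀ p2 a3
      rw [Real.rpow_neg (by norm_num), inv_inv] at h6
      exact h6

theorem mxl_crs {g k c : E → ℝ} {lam : ℝ} {M : ℕ} (h : Crs g k lam M) (hc : ∀ f, 0 ≤ c f)
    {l : List E} (hl : l.length ≤ M) : mxl k c l ≤ 2 * mxl g c l := by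
  rcases (mxl_nonneg hc l : 0 ≤ mxl k c l).eq_or_lt with h0 | h0
  · rw [← h0]
    have := (mxl_nonneg hc l : 0 ≤ mxl g c l)
    linarith
  · obtain ⟨x, n, f, rfl, h1, -⟩ := exists_mxl h.2.1 hc l h0
    rw [h1]
    have h2 := le_mxl h.1 hc x n f
    have h3 : wt k x ≤ 2 * wt g x := h.ge (by
      rw [List.length_append] at hl
      omega)
    have h4 := mul_le_mul_of_nonneg_right h3 (hc f)
    linarith

theorem mxl_crs' {g k c : E → ℝ} {lam : ℝ} {M : ℕ} (h : Crs g k lam M) (hc : ∀ f, 0 ≤ c f)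
    {l : List E} (hl : l.length ≤ M) : mxl g c l ≤ 2 * mxl k c l := by
  rcases (mxl_nonneg hc l : 0 ≤ mxl g c l).eq_or_lt with h0 | h0
  · rw [← h0]
    have := (mxl_nonneg hc l : 0 ≤ mxl k c l)
    linarith
  · obtain ⟨x, n, f, rfl, h1, -⟩ := exists_mxl h.1 hc l h0
    rw [h1]
    have h2 := le_mxl h.2.1 hc x n f
    have h3 : wt g x ≤ 2 * wt k x := h.le (by
      rw [List.length_append] at hl
      omega)
    have h4 := mul_le_mul_of_nonneg_right h3 (hc f)
    linarith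

theorem dd_rev [Fintype E] [DecidableEq N] (tl hd : E → Option N) {g : E → ℝ}
    (hg : ∀ f, 0 < g f) (y : E → ℝ) (u : N) :
    dd hd tl (fun f => (g f)⁻¹) (fun f => g f * y f) u = - dd tl hd g y u := by
  unfold dd
  rw [← Finset.sum_neg_distrib]
  refine Finset.sum_congr rfl fun f _ => ?_
  have h1 : (g f)⁻¹ * (g f * y f) = y f := by
    rw [← mul_assoc, inv_mul_cancel₀ (hg f).ne', one_mul]
  rw [h1]
  ring

/-- The production of a unit at `v`: the disposal in the reversed graph. -/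
theorem prod_side (hTP : S_TP) [Fintype E] [DecidableEq E] [DecidableEq N]
    (tl hd : E → Option N) (g k a b : E → ℝ) (lam : ℝ) (M0 : ℕ) (v : N)
    (hC : Crs g k lam M0) (hM : Fintype.card E ≤ M0) (ha : ∀ f, 0 ≤ a f) (hb : ∀ f, 0 ≤ b f)
    (hM1 : 1 ≤ M0) :
    ∃ D : Finset (ℝ × ℝ), D.card ≤ 2 * Fintype.card E ^ 2 + 2 * Fintype.card E + 2 ∧
    (∀ p ∈ D, 0 ≤ p.1 ∧ 0 ≤ p.2) ∧
    (∀ L p, Fb hd tl (fun f => (g f)⁻¹) (fun f => (k f)⁻¹) L M0 (fun f => a f / k f)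
      (fun f => b f / k f) v p → ∃ p' ∈ D, p'.1 ≤ p.1 ∧ p'.2 ≤ p.2) ∧
    (∀ θ : ℝ, 0 < θ → ∀ y : E → ℝ, (∀ f, 0 ≤ y f) → (∀ u, dd tl hd g y u ≤ 0) →
      dd tl hd g y v < 0 → ∃ p ∈ D, - dd tl hd g y v * max p.1 (θ * p.2) ≤
        4 * ∑ f, (a f + θ * b f) * y f) ∧
    ∀ p ∈ D, ∃ y : E → ℝ, (∀ f, 0 ≤ y f) ∧
      (∀ u, dd tl hd g y u = if u = v then -1 else 0) ∧
      ∑ f, a f * y f ≤ 40 * (M0 + 1) / lam * p.1 ∧ ∑ f, b f * y f ≤ 40 * (M0 + 1) / lam * p.2 := by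
  have hg := hC.1
  have hk := hC.2.1
  have hgk : ∀ f, g f ≤ 2 * k f := fun f => by
    have := hC.le (l := [f]) (by simpa using hM1)
    simpa [wt] using this
  have hkg : ∀ f, k f ≤ 2 * g f := fun f => by
    have := hC.ge (l := [f]) (by simpa using hM1)
    simpa [wt] using this
  obtain ⟨D, h1, h2, h3, h4, h5⟩ := hTP E N hd tl (fun f => (g f)⁻¹) (fun f => (k f)⁻¹)
    (fun f => a f / k f) (fun f => b f / k f) lam M0 v hC.inv hM
    (fun f => div_nonneg (ha f) (hk f).le) (fun f => div_nonneg (hb f) (hk f).le)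
  refine ⟨D, h1, h2, h3, ?_, ?_⟩
  · intro θ hθ y hy hdd hv
    obtain ⟨p, hp, hp2⟩ := h4 θ hθ (fun f => g f * y f)
      (fun f => mul_nonneg (hg f).le (hy f)) (fun u => by rw [dd_rev tl hd hg]; linarith [hdd u])
      (by rw [dd_rev tl hd hg]; linarith)
    refine ⟨p, hp, ?_⟩
    rw [dd_rev tl hd hg] at hp2
    refine hp2.trans ?_
    rw [Finset.mul_sum, Finset.mul_sum]
    refine Finset.sum_le_sum fun f _ => ?_
    have h6 : (a f / k f + θ * (b f / k f)) * (g f * y f) =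
        (a f + θ * b f) * y f * (g f / k f) := by
      field_simp
    rw [h6]
    have h7 : g f / k f ≤ 2 := by
      rw [div_le_iff₀ (hk f)]
      exact hgk f
    have h8 : 0 ≤ (a f + θ * b f) * y f :=
      mul_nonneg (add_nonneg (ha f) (mul_nonneg hθ.le (hb f))) (hy f)
    nlinarith
  · intro p hp
    obtain ⟨y, y1, y2, y3, y4⟩ := h5 p hp
    have key : ∀ c : E → ℝ, (∀ f, 0 ≤ c f) → ∑ f, c f * (y f / g f) ≤
        2 * ∑ f, c f / k f * y f := by
      intro c hc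
      rw [Finset.mul_sum]
      refine Finset.sum_le_sum fun f _ => ?_
      have h7 : k f / g f ≤ 2 := by
        rw [div_le_iff₀ (hg f)]
        exact hkg f
      have h8 : 0 ≤ c f / k f * y f := mul_nonneg (div_nonneg (hc f) (hk f).le) (y1 f)
      have h9 : c f * (y f / g f) = c f / k f * y f * (k f / g f) := by
        have := (hk f).ne'
        field_simp
      rw [h9]
      nlinarith
    refine ⟨fun f => y f / g f, fun f => div_nonneg (y1 f) (hg f).le, fun u => ?_, ?_, ?_⟩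
    · have h6 := dd_rev tl hd hg (fun f => y f / g f) u
      have h7 : (fun f => g f * (y f / g f)) = y := by
        funext f
        have := (hg f).ne'
        field_simp
      rw [h7, y2] at h6
      split_ifs with h8
      · rw [if_pos h8] at h6; linarith
      · rw [if_neg h8] at h6; linarith
    · have := key a ha
      calc _ ≤ _ := this
        _ ≤ 2 * (20 * (M0 + 1) / lam * p.1) := by linarith
        _ = _ := by ring
    · have := key b hb
      calc _ ≤ _ := this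
        _ ≤ 2 * (20 * (M0 + 1) / lam * p.2) := by linarith
        _ = _ := by ring

/-- The best lower bound for the disposal. -/
theorem bestT [Fintype E] [DecidableEq N] (tl hd : E → Option N) (g a b : E → ℝ) (v : N)
    (ha : ∀ f, 0 ≤ a f) (hb : ∀ f, 0 ≤ b f) (D : Finset (ℝ × ℝ))
    (hD : ∀ p ∈ D, 0 ≤ p.1 ∧ 0 ≤ p.2) (θ : ℝ) (hθ : 0 < θ)
    (hlow : ∀ y : E → ℝ, (∀ f, 0 ≤ y f) → (∀ u, 0 ≤ dd tl hd g y u) →
      0 < dd tl hd g y v → ∃ p ∈ D, dd tl hd g y v * max p.1 (θ * p.2) ≤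
        2 * ∑ f, (a f + θ * b f) * y f) :
    ∃ T : ℝ, 0 ≤ T ∧ LB tl hd g (fun f => a f + θ * b f) v T ∧
      (Fe tl hd g v → ∃ l ∈ D, max l.1 (θ * l.2) = 2 * T) := by
  have hpos : ∀ y : E → ℝ, (∀ f, 0 ≤ y f) → 0 ≤ ∑ f, (a f + θ * b f) * y f := fun y hy =>
    Finset.sum_nonneg fun f _ => mul_nonneg (add_nonneg (ha f) (mul_nonneg hθ.le (hb f))) (hy f)
  rcases D.eq_empty_or_nonempty with rfl | hne
  · refine ⟨0, le_rfl, fun y hy _ => ?_, ?_⟩
    · rw [mul_zero]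
      exact hpos y hy
    · rintro ⟨y, h1, h2, h3⟩
      obtain ⟨p, hp, -⟩ := hlow y h1 h2 h3
      exact absurd hp (Finset.notMem_empty p)
  · obtain ⟨l, hl, hmin⟩ := D.exists_min_image (fun p => max p.1 (θ * p.2)) hne
    refine ⟨max l.1 (θ * l.2) / 2, ?_, fun y hy hdd => ?_, fun _ => ⟨l, hl, by ring⟩⟩
    · have := (hD l hl).1.trans (le_max_left l.1 (θ * l.2))
      linarith
    · rcases (hdd v).eq_or_lt with h0 | h0
      · rw [← h0, zero_mul]
        exact hpos y hy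
      · obtain ⟨p, hp, hp2⟩ := hlow y hy hdd h0
        have h1 := mul_le_mul_of_nonneg_left (hmin p hp) h0.le
        have h2 : dd tl hd g y v * (max l.1 (θ * l.2) / 2) =
            dd tl hd g y v * max l.1 (θ * l.2) / 2 := by ring
        rw [h2]
        linarith

/-- The best lower bound for the production. -/
theorem bestS [Fintype E] [DecidableEq N] (tl hd : E → Option N) (g a b : E → ℝ) (v : N)
    (ha : ∀ f, 0 ≤ a f) (hb : ∀ f, 0 ≤ b f) (D : Finset (ℝ × ℝ))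
    (hD : ∀ p ∈ D, 0 ≤ p.1 ∧ 0 ≤ p.2) (θ : ℝ) (hθ : 0 < θ)
    (hlow : ∀ y : E → ℝ, (∀ f, 0 ≤ y f) → (∀ u, dd tl hd g y u ≤ 0) →
      dd tl hd g y v < 0 → ∃ p ∈ D, - dd tl hd g y v * max p.1 (θ * p.2) ≤
        4 * ∑ f, (a f + θ * b f) * y f) :
    ∃ T : ℝ, 0 ≤ T ∧ LBS tl hd g (fun f => a f + θ * b f) v T ∧
      (Fes tl hd g v → ∃ l ∈ D, max l.1 (θ * l.2) = 4 * T) := by
  have hpos : ∀ y : E → ℝ, (∀ f, 0 ≤ y f) → 0 ≤ ∑ f, (a f + θ * b f) * y f := fun y hy =>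
    Finset.sum_nonneg fun f _ => mul_nonneg (add_nonneg (ha f) (mul_nonneg hθ.le (hb f))) (hy f)
  rcases D.eq_empty_or_nonempty with rfl | hne
  · refine ⟨0, le_rfl, fun y hy _ => ?_, ?_⟩
    · rw [mul_zero]
      exact hpos y hy
    · rintro ⟨y, h1, h2, h3⟩
      obtain ⟨p, hp, -⟩ := hlow y h1 h2 h3
      exact absurd hp (Finset.notMem_empty p)
  · obtain ⟨l, hl, hmin⟩ := D.exists_min_image (fun p => max p.1 (θ * p.2)) hne
    refine ⟨max l.1 (θ * l.2) / 4, ?_, fun y hy hdd => ?_, fun _ => ⟨l, hl, by ring⟩⟩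
    · have := (hD l hl).1.trans (le_max_left l.1 (θ * l.2))
      linarith
    · rcases (hdd v).eq_or_lt with h0 | h0
      · rw [h0, neg_zero, zero_mul]
        exact hpos y hy
      · obtain ⟨p, hp, hp2⟩ := hlow y hy hdd h0
        have h1 := mul_le_mul_of_nonneg_left (hmin p hp) (neg_pos.2 h0).le
        have h2 : - dd tl hd g y v * (max l.1 (θ * l.2) / 4) =
            - dd tl hd g y v * max l.1 (θ * l.2) / 4 := by ring
        rw [h2]
        linarith

end Pool.Agent.L7h39.TV
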